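import Pool.Agent.R905.GB.DefsTwo

/-!
# Prime cycles: definitions
-/

set_option autoImplicit false

open TensorProduct

namespace Pool.Agent.R905.GB

variable {V : Type} {C : Chow V} {K : Type} [Field K] [Algebra ℚ K]

/-- The elements of the finite set `S` of cycles of dimension `i` on `X` are supported on a closed
subvariety `Z`, and all cycles of dimension `i` on `Z` are linear combinations of them. This holds for
each finite set `S` of integral closed subvarieties of dimension `i`: take their union for `Z`. -/
def IsUnion (T : Homology C K) (X : V) (i : ℤ) (S : Finset (C.CH X i)) : Prop :=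
  ∃ (Z U : V) (c : Localization C i Z X U), Nonempty (ClosedPair T c) ∧
    (∀ x ∈ S, ∃ z : C.CH Z i, c.d (fun _ => z) = fun _ => x) ∧
    ∀ z : C.CH Z i, ∃ x ∈ Submodule.span ℚ (S : Set (C.CH X i)), c.d (fun _ => z) = fun _ => x

/-- `CH_i(X)_ℚ` is spanned by the classes of a set `P` of cycles (integral closed subvarieties) for
which unions exist. -/
def HasPrimeCycles (T : Homology C K) (X : V) (i : ℤ) : Prop :=
  ∃ P : Set (C.CH X i), Submodule.span ℚ P = ⊤ ∧
    ∀ S : Finset (C.CH X i), (S : Set (C.CH X i)) ⊆ P → IsUnion T X i S

/-- The cycle class map is injective on `CH_i(X)_ℚ` (with rational coefficients): rational and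
homological equivalence agree. -/
def Homology.RatInjective (T : Homology C K) (X : V) (i : ℤ) : Prop :=
  ∀ x : C.CH X i, T.cl X i (1 ⊗ₜ x) = 0 → x = 0

/-- The cycle classes span the space of invariants of the Frobenius. -/
def Homology.Spans (T : Homology C K) (X : V) (i : ℤ) : Prop :=
  ∀ e : T.E X i, T.frob X i e = e →
    e ∈ Submodule.span K (Set.range fun x : C.CH X i => T.cl X i (1 ⊗ₜ x))

end Pool.Agent.R905.GB
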