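import Pool.Agent.R905.GB.Prime
import Pool.Agent.R905.GB.CoefDefs

/-!
# Rational and `ℓ`-adic coefficients
-/

set_option autoImplicit false

open TensorProduct

namespace Pool.Agent.R905.GB

variable {V : Type} {C : Chow V} {K : Type} [Field K] [Algebra ℚ K] {T : Homology C K}

lemma surj_iff_spans (X : V) (i : ℤ) : T.Surj X i ↔ T.Spans X i := by
  constructor
  · intro h e he
    obtain ⟨z, rfl⟩ := h e he
    clear he
    induction z using TensorProduct.induction_on with
    | zero => rw [map_zero]; exact Submodule.zero_mem _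
    | tmul a x =>
      rw [cl_smul]
      exact Submodule.smul_mem _ _ (Submodule.subset_span ⟨x, rfl⟩)
    | add a b ha hb => rw [map_add]; exact Submodule.add_mem _ ha hb
  · intro h e he
    have h1 : Submodule.span K (Set.range fun x : C.CH X i => T.cl X i (1 ⊗ₜ x)) ≤
        LinearMap.range (T.cl X i) := by
      rw [Submodule.span_le]
      rintro _ ⟨x, rfl⟩
      exact ⟨_, rfl⟩
    exact h1 (h e he)

/-- Injectivity with coefficients in `K` passes to complements. -/
lemma injective_complement {X : V} {i : ℤ} (hX : Function.Injective (T.cl X i)) {Z U : V}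
    {c : Localization C i Z X U} (q : ClosedPair T c) : Function.Injective (T.cl U i) := by
  rw [injective_iff_map_eq_zero]
  intro z hz
  obtain ⟨z0, rfl⟩ := LinearMap.lTensor_surjective K c.surj z
  have hz' : q.pres.P (fun k => T.cl X i (LinearMap.baseChange K (LinearMap.proj k) z0)) =
      0 := by
    rw [cl_P_tensor]
    exact hz
  obtain ⟨e1, hge, he2⟩ := q.pres.gen_exact _ (fun k => gen_cl _) hz'
  obtain ⟨w, hw⟩ := q.span (e1 ()) (hge ())
  obtain ⟨z1, hz1⟩ := exists_family (fun _ : Unit => Z) i (fun _ => w)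
  have h3 : (fun k : Unit => T.cl Z i (LinearMap.baseChange K (LinearMap.proj k) z1)) =
      e1 := by
    funext k
    rw [hz1]
    exact hw
  have h4 := cl_D_tensor q.pres z1
  rw [h3, he2] at h4
  have h5 : z0 = LinearMap.baseChange K c.d z1 :=
    family_ext (fun _ : Unit => X) i _ _ fun k => hX (congrFun h4 k)
  rw [h5]
  have h6 : (LinearMap.baseChange K c.p) (LinearMap.baseChange K c.d z1) = 0 := by
    rw [← LinearMap.comp_apply, ← LinearMap.baseChange_comp, c.exact.linearMap_comp_eq_zero,
      LinearMap.baseChange_zero, LinearMap.zero_apply]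
  exact h6

lemma ratInjective_of_injective {X : V} {i : ℤ} (h : Function.Injective (T.cl X i)) :
    T.RatInjective X i := by
  intro x hx
  apply one_tmul_eq_zero (L := K)
  apply h
  rw [hx, map_zero]

/-- The step: a relation between prime cycles. -/
lemma relation {X : V} {i : ℤ} {P : Set (C.CH X i)}
    (hP : ∀ S : Finset (C.CH X i), (S : Set (C.CH X i)) ⊆ P → IsUnion T X i S)
    (h : ∀ Z U (c : Localization C i Z X U), ClosedPair T c → T.RatInjective U i) :
    ∀ (n : ℕ) (S : Finset (C.CH X i)), S.card = n → (S : Set (C.CH X i)) ⊆ P →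
      ∀ a : C.CH X i → K, ∑ s ∈ S, a s • T.cl X i (1 ⊗ₜ s) = 0 →
        ∑ s ∈ S, a s ⊗ₜ[ℚ] s = 0 := by
  classical
  intro n
  induction n with
  | zero =>
    intro S hS _ a _
    rw [Finset.card_eq_zero.1 hS, Finset.sum_empty]
  | succ n ih =>
    intro S hS hSP a ha
    by_cases h0 : ∀ s ∈ S, a s = 0
    · exact Finset.sum_eq_zero fun s hs => by rw [h0 s hs, TensorProduct.zero_tmul]
    push Not at h0
    obtain ⟨s0, hs0, hne⟩ := h0
    let S' := S.erase s0
    have hS' : S'.card = n := by
      rw [Finset.card_erase_of_mem hs0, hS]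
      rfl
    have hSP' : (S' : Set (C.CH X i)) ⊆ P := fun s hs => hSP (Finset.mem_of_mem_erase hs)
    obtain ⟨Z, U, c, ⟨q⟩, hz, hz'⟩ := hP S' hSP'
    -- the class of `s0`
    rw [← Finset.add_sum_erase S _ hs0] at ha
    have hcl : T.cl X i (1 ⊗ₜ s0) = ∑ s ∈ S', (-(a s0)⁻¹ * a s) • T.cl X i (1 ⊗ₜ s) := by
      have h1 : a s0 • T.cl X i (1 ⊗ₜ s0) = -∑ s ∈ S', a s • T.cl X i (1 ⊗ₜ s) :=
        eq_neg_of_add_eq_zero_left ha
      have h2 : T.cl X i (1 ⊗ₜ s0) = (a s0)⁻¹ • (a s0 • T.cl X i (1 ⊗ₜ s0)) := by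
        rw [smul_smul, inv_mul_cancel₀ hne, one_smul]
      rw [h2, h1, smul_neg, Finset.smul_sum, ← Finset.sum_neg_distrib]
      refine Finset.sum_congr rfl fun s _ => ?_
      rw [smul_smul, neg_mul, neg_smul]
    -- it is rationally trivial on `U`
    have hP0 : ∀ s ∈ S', q.pres.P (fun _ => T.cl X i (1 ⊗ₜ s)) = 0 := by
      intro s hs
      obtain ⟨z, hzs⟩ := hz s hs
      have h3 := q.pres.cl_D (fun _ => z)
      rw [hzs] at h3
      have h4 := q.pres.P_D (fun _ => T.cl Z i (1 ⊗ₜ z))
      rw [h3] at h4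
      exact h4
    have hU : T.cl U i (1 ⊗ₜ c.p (fun _ => s0)) = 0 := by
      rw [← q.pres.cl_P (fun _ => s0)]
      change q.pres.P (fun _ => T.cl X i (1 ⊗ₜ s0)) = 0
      have h5 : (fun _ : Unit => T.cl X i (1 ⊗ₜ s0)) =
          ∑ s ∈ S', (-(a s0)⁻¹ * a s) • (fun _ : Unit => T.cl X i (1 ⊗ₜ s)) := by
        funext k
        rw [Finset.sum_apply]
        exact hcl
      rw [h5, map_sum]
      refine Finset.sum_eq_zero fun s hs => ?_
      rw [map_smul, hP0 s hs, smul_zero]
    have h6 := h Z U c q _ hU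
    obtain ⟨z, hzz⟩ := (c.exact _).1 h6
    obtain ⟨x, hx, hxx⟩ := hz' (z ())
    have h7 : x = s0 := by
      have h8 : (fun _ : Unit => z ()) = z := by
        funext k
        rfl
      rw [h8, hzz] at hxx
      exact (congrFun hxx ()).symm
    subst h7
    obtain ⟨b, hb⟩ := (Submodule.mem_span_finset').1 hx
    let b' : C.CH X i → ℚ := fun s => if hs : s ∈ S' then b ⟨s, hs⟩ else 0
    have hb' : ∑ s ∈ S', b' s • s = x := by
      rw [← hb, ← Finset.sum_coe_sort S']
      refine Finset.sum_congr rfl fun s _ => ?_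
      change (if hs : s.1 ∈ S' then b ⟨s.1, hs⟩ else 0) • s.1 = _
      rw [dif_pos s.2]
    have key : ∀ y : K, y ⊗ₜ[ℚ] x = ∑ s ∈ S', (y * algebraMap ℚ K (b' s)) ⊗ₜ[ℚ] s := by
      intro y
      conv_lhs => rw [← hb']
      rw [TensorProduct.tmul_sum]
      refine Finset.sum_congr rfl fun s _ => ?_
      rw [← TensorProduct.smul_tmul, Algebra.smul_def, mul_comm]
    have h9 : ∑ s ∈ S, a s ⊗ₜ[ℚ] s =
        ∑ s ∈ S', (a x * algebraMap ℚ K (b' s) + a s) ⊗ₜ[ℚ] s := by
      rw [← Finset.add_sum_erase S _ hs0, key, ← Finset.sum_add_distrib]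
      exact Finset.sum_congr rfl fun s _ => (TensorProduct.add_tmul _ _ _).symm
    rw [h9]
    refine ih S' hS' hSP' (fun s => a x * algebraMap ℚ K (b' s) + a s) ?_
    have h10 := congrArg (T.cl X i) (key (a x))
    rw [cl_smul, map_sum] at h10
    rw [h10, ← Finset.sum_add_distrib] at ha
    rw [← ha]
    refine Finset.sum_congr rfl fun s _ => ?_
    rw [cl_smul T X i (a x * algebraMap ℚ K (b' s)) s, add_smul]

/-- Injectivity with coefficients in `K` for `X` is injectivity with rational coefficients for all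
complements. -/
theorem injective_iff {X : V} {i : ℤ} (hX : HasPrimeCycles T X i) :
    Function.Injective (T.cl X i) ↔
      ∀ Z U (c : Localization C i Z X U), ClosedPair T c → T.RatInjective U i := by
  classical
  constructor
  · intro h Z U c q
    exact ratInjective_of_injective (injective_complement h q)
  · intro h
    obtain ⟨P, hP, hP'⟩ := hX
    rw [injective_iff_map_eq_zero]
    intro z hz
    -- write `z` with prime cycles
    have h1 : ∀ x : C.CH X i, ∀ y : K, y ⊗ₜ[ℚ] x ∈ Submodule.span K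
        ((fun s : C.CH X i => (1 : K) ⊗ₜ[ℚ] s) '' P) := by
      intro x y
      have hx : x ∈ Submodule.span ℚ P := hP ▸ Submodule.mem_top
      induction hx using Submodule.span_induction generalizing y with
      | mem x hx =>
        have h2 : y ⊗ₜ[ℚ] x = y • ((1 : K) ⊗ₜ[ℚ] x) := by
          rw [TensorProduct.smul_tmul', smul_eq_mul, mul_one]
        rw [h2]
        exact Submodule.smul_mem _ _ (Submodule.subset_span ⟨x, hx, rfl⟩)
      | zero => rw [TensorProduct.tmul_zero]; exact Submodule.zero_mem _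
      | add a b _ _ ha hb =>
        rw [TensorProduct.tmul_add]
        exact Submodule.add_mem _ (ha y) (hb y)
      | smul r a _ ha =>
        rw [← TensorProduct.smul_tmul]
        exact ha _
    have h2 : ∀ w : K ⊗[ℚ] C.CH X i, w ∈ Submodule.span K
        ((fun s : C.CH X i => (1 : K) ⊗ₜ[ℚ] s) '' P) := by
      intro w
      induction w using TensorProduct.induction_on with
      | zero => exact Submodule.zero_mem _
      | tmul y x => exact h1 x y
      | add a b ha hb => exact Submodule.add_mem _ ha hb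
    obtain ⟨S, hSP, a, ha⟩ := (Submodule.mem_span_image_iff_exists_fun K).1 (h2 z)
    let a' : C.CH X i → K := fun s => if hs : s ∈ S then a ⟨s, hs⟩ else 0
    have ha' : ∑ s ∈ S, a' s ⊗ₜ[ℚ] s = z := by
      rw [← ha, ← Finset.sum_coe_sort S]
      refine Finset.sum_congr rfl fun s _ => ?_
      change (if hs : s.1 ∈ S then a ⟨s.1, hs⟩ else 0) ⊗ₜ[ℚ] s.1 = _
      rw [dif_pos s.2, TensorProduct.smul_tmul', smul_eq_mul, mul_one]
    rw [← ha']
    refine relation hP' h S.card S rfl hSP a' ?_
    rw [← ha', map_sum] at hz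
    rw [← hz]
    exact Finset.sum_congr rfl fun s _ => (cl_smul T X i (a' s) s).symm

end Pool.Agent.R905.GB
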