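import Mathlib

/-!
# Chow groups and `ℓ`-adic homology of varieties over a finite field: definitions
-/

set_option autoImplicit false

open TensorProduct

namespace Pool.Agent.R905.GB

/-- The Chow groups `CH X i = CH_i(X)_ℚ` of the varieties `X : V` over a finite field. -/
structure Chow (V : Type) where
  /-- `CH_i(X)_ℚ` -/
  CH : V → ℤ → Type
  [grp : ∀ X i, AddCommGroup (CH X i)]
  [mod : ∀ X i, Module ℚ (CH X i)]

attribute [instance] Chow.grp Chow.mod

/-- The `ℓ`-adic homology groups of the varieties `X : V` over a finite field, where `K = ℚ_ℓ`: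
`E X i = H_{2i}(X̄, ℚ_ℓ(i))`, finite dimensional over `K`, the geometric Frobenius `frob X i` on it, and
the cycle class map `cl X i`, linear over `K`, whose image consists of invariants of the Frobenius. -/
structure Homology {V : Type} (C : Chow V) (K : Type) [Field K] [Algebra ℚ K] where
  /-- `H_{2i}(X̄, ℚ_ℓ(i))` -/
  E : V → ℤ → Type
  [grp : ∀ X i, AddCommGroup (E X i)]
  [mod : ∀ X i, Module K (E X i)]
  [fin : ∀ X i, Module.Finite K (E X i)]
  /-- the Frobenius -/
  frob : ∀ X i, E X i →ₗ[K] E X i
  /-- the cycle class map -/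
  cl : ∀ X i, K ⊗[ℚ] C.CH X i →ₗ[K] E X i
  frob_cl : ∀ X i x, frob X i (cl X i x) = cl X i x

attribute [instance] Homology.grp Homology.mod Homology.fin

variable {V : Type} {C : Chow V} {K : Type} [Field K] [Algebra ℚ K] (T : Homology C K)

/-- The cycle class map `cl_i` of `X` is surjective onto the invariants of the Frobenius. -/
def Homology.Surj (X : V) (i : ℤ) : Prop :=
  ∀ e : T.E X i, T.frob X i e = e → ∃ x, T.cl X i x = e

/-- The cycle class map `cl_i` of `X` is an isomorphism onto the invariants of the Frobenius. -/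
def Homology.Iso (X : V) (i : ℤ) : Prop :=
  Function.Injective (T.cl X i) ∧ T.Surj X i

/-- `e` is in the generalized eigenspace of the Frobenius for the eigenvalue one. -/
def Homology.Gen {X : V} {i : ℤ} (e : T.E X i) : Prop :=
  e ∈ Module.End.maxGenEigenspace (T.frob X i) 1

/-- The eigenvalue one of the Frobenius on `H_{2i}(X̄, ℚ_ℓ(i))` is semisimple. -/
def Homology.Semisimple (X : V) (i : ℤ) : Prop :=
  ∀ e : T.E X i, T.Gen e → T.frob X i e = e

/-- Elements of the direct sum of the Chow groups of a family of varieties. -/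
abbrev Chow.CHs (C : Chow V) {I : Type} (X : I → V) (i : ℤ) : Type := ∀ k, C.CH (X k) i

/-- Elements of the direct sum of the homology groups of a family of varieties. -/
abbrev Homology.Es {I : Type} (X : I → V) (i : ℤ) : Type := ∀ k, T.E (X k) i

/-- The Frobenius for a family. -/
def Homology.frobs {I : Type} {X : I → V} {i : ℤ} (e : T.Es X i) : T.Es X i :=
  fun k => T.frob (X k) i (e k)

/-- The cycle classes for a family. -/
def Homology.cls {I : Type} {X : I → V} {i : ℤ} (x : C.CHs X i) : T.Es X i :=
  fun k => T.cl (X k) i (1 ⊗ₜ x k)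

/-- A presentation of the Chow group `CH_i(X)_ℚ` by those of two finite families of varieties `X₁ k`
and `X₀ k`: a right exact sequence
`⨁ CH_i(X₁ k)_ℚ → ⨁ CH_i(X₀ k)_ℚ → CH_i(X)_ℚ → 0`. -/
structure ChowPres (C : Chow V) (i : ℤ) {I₁ I₀ : Type} [Fintype I₁] [Fintype I₀] (X₁ : I₁ → V)
    (X₀ : I₀ → V) (X : V) where
  /-- the first homomorphism of Chow groups -/
  d : C.CHs X₁ i →ₗ[ℚ] C.CHs X₀ i
  /-- the second homomorphism of Chow groups -/
  p : C.CHs X₀ i →ₗ[ℚ] C.CH X i
  exact : Function.Exact d p
  surj : Function.Surjective p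

/-- Homomorphisms of the homology groups of two families of varieties and of a variety `X`. -/
structure Maps (i : ℤ) {I₁ I₀ : Type} (X₁ : I₁ → V) (X₀ : I₀ → V) (X : V) where
  /-- the first homomorphism of homology groups -/
  D : T.Es X₁ i →ₗ[K] T.Es X₀ i
  /-- the second homomorphism of homology groups -/
  P : T.Es X₀ i →ₗ[K] T.E X i

section

variable {T} {i : ℤ} {I₁ I₀ : Type} {X₁ : I₁ → V} {X₀ : I₀ → V} {X : V}

/-- Compatibility with the Frobenius. -/
def Maps.FrobCompatible (m : Maps T i X₁ X₀ X) : Prop :=
  (∀ e : T.Es X₁ i, m.D (T.frobs e) = T.frobs (m.D e)) ∧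
    ∀ e : T.Es X₀ i, m.P (T.frobs e) = T.frob X i (m.P e)

/-- Compatibility with the cycle classes. -/
def Maps.ClCompatible [Fintype I₁] [Fintype I₀] (m : Maps T i X₁ X₀ X)
    (c : ChowPres C i X₁ X₀ X) : Prop :=
  (∀ x : C.CHs X₁ i, m.D (T.cls x) = T.cls (c.d x)) ∧
    ∀ x : C.CHs X₀ i, m.P (T.cls x) = T.cl X i (1 ⊗ₜ c.p x)

/-- Right exactness for the generalized eigenspaces for the eigenvalue one. -/
def Maps.GenExact (m : Maps T i X₁ X₀ X) : Prop :=
  (∀ e : T.Es X₁ i, m.P (m.D e) = 0) ∧
    (∀ e : T.Es X₀ i, (∀ k, T.Gen (e k)) → m.P e = 0 →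
      ∃ e', (∀ k, T.Gen (e' k)) ∧ m.D e' = e) ∧
    ∀ e : T.E X i, T.Gen e → ∃ e', (∀ k, T.Gen (e' k)) ∧ m.P e' = e

end

/-- A presentation of homology which is compatible with the presentation `c` of Chow groups:
homomorphisms between the direct sums of the homology groups of the `X₁ k` and of the `X₀ k` and the
homology group of `X`, compatible with the Frobenius and the cycle classes, which are right exact on
the generalized eigenspaces for the eigenvalue one.

Examples: (1) `Z → X → U` where `Z` is a closed subvariety of `X` with complement `U` (localization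
sequences; the next term `H_{2i-1}(Z̄, ℚ_ℓ(i))` in `ℓ`-adic homology has weights `≥ 1`); (2) `X` proper,
`X₀ → X` proper and surjective with `X₀` smooth and projective, and `X₁ → X₀ ×_X X₀` of the same kind
(the generalized eigenspace is contained in the part of weight `0`). -/
structure HomPres {i : ℤ} {I₁ I₀ : Type} [Fintype I₁] [Fintype I₀] {X₁ : I₁ → V} {X₀ : I₀ → V}
    {X : V} (c : ChowPres C i X₁ X₀ X) where
  /-- the homomorphisms -/
  maps : Maps T i X₁ X₀ X
  frob : maps.FrobCompatible
  cl : maps.ClCompatible c
  gen : maps.GenExact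

/-- `Z` is a closed subvariety of `X` of dimension at most `i` with complement `U`: there is a
presentation `Z → X → U` of the Chow groups in dimension `i`. -/
abbrev Localization (C : Chow V) (i : ℤ) (Z X U : V) : Type :=
  ChowPres C i (fun _ : Unit => Z) (fun _ : Unit => X) U

/-- The localization sequence in homology for a closed subvariety `Z` of `X` of dimension at most `i`:
a presentation `Z → X → U`, where the generalized eigenspace for the eigenvalue one on the homology
`H_{2i}(Z̄, ℚ_ℓ(i))` is spanned by cycle classes (`H_{2i}(Z̄, ℚ_ℓ(i))` has the irreducible components of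
dimension `i` of `Z̄` as basis, permuted by the Frobenius, and the cycles are the sums over the
orbits). -/
structure ClosedPair {i : ℤ} {Z X U : V} (c : Localization C i Z X U) where
  /-- the localization sequence -/
  pres : HomPres T c
  span : ∀ e : T.E Z i, T.Gen e → ∃ z, T.cl Z i z = e

end Pool.Agent.R905.GB
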