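import Pool.Agent.R905.GB.DefsTwo

/-!
# Cycles modulo homological equivalence: definitions
-/

set_option autoImplicit false

open TensorProduct

namespace Pool.Agent.R905.GB

variable {V : Type} {C : Chow V} {K : Type} [Field K] [Algebra ℚ K]

/-- The homologically trivial cycles in `CH_i(X)_ℚ`: the cycles with cycle class zero. -/
def Homology.HomTriv (T : Homology C K) (X : V) (i : ℤ) : Submodule ℚ (C.CH X i) where
  carrier := {x | T.cl X i (1 ⊗ₜ x) = 0}
  add_mem' {x y} hx hy := by
    change T.cl X i (1 ⊗ₜ x) = 0 at hx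
    change T.cl X i (1 ⊗ₜ y) = 0 at hy
    change T.cl X i (1 ⊗ₜ (x + y)) = 0
    rw [TensorProduct.tmul_add, map_add, hx, hy, add_zero]
  zero_mem' := by
    change T.cl X i (1 ⊗ₜ 0) = 0
    rw [TensorProduct.tmul_zero, map_zero]
  smul_mem' c x hx := by
    change T.cl X i (1 ⊗ₜ x) = 0 at hx
    change T.cl X i (1 ⊗ₜ (c • x)) = 0
    have h : (1 : K) ⊗ₜ[ℚ] (c • x) = algebraMap ℚ K c • ((1 : K) ⊗ₜ[ℚ] x) := by
      rw [TensorProduct.tmul_smul, algebraMap_smul]
    rw [h, map_smul, hx, smul_zero]

/-- The cycles modulo homological equivalence, `B_i(X)_ℚ`; this is the image of `CH_i(X)_ℚ` under the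
cycle class map. -/
abbrev Homology.B (T : Homology C K) (X : V) (i : ℤ) : Type := C.CH X i ⧸ T.HomTriv X i

/-- The kernel of the cycle class map on `K ⊗ CH_i(X)_ℚ` comes from homologically trivial cycles. In
other words: `K ⊗ B_i(X)_ℚ` maps injectively to the homology. -/
def Homology.Inj (T : Homology C K) (X : V) (i : ℤ) : Prop :=
  ∀ z : K ⊗[ℚ] C.CH X i, T.cl X i z = 0 →
    z ∈ LinearMap.range (LinearMap.baseChange K (T.HomTriv X i).subtype)

/-- The complete conjecture for `(X, i)`: the cycle class map is surjective onto the invariants of the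
Frobenius; `K ⊗ B_i(X)_ℚ` maps injectively to the homology (so this is an isomorphism onto the
invariants); the eigenvalue one of the Frobenius is semisimple; `B_i(X)_ℚ` is finite dimensional, and
its dimension is the multiplicity of the eigenvalue one of the Frobenius. -/
structure Homology.Strong (T : Homology C K) (X : V) (i : ℤ) : Prop where
  surj : T.Surj X i
  inj : T.Inj X i
  semisimple : T.Semisimple X i
  finite : Module.Finite ℚ (T.B X i)
  rank : Module.finrank ℚ (T.B X i) = T.mult X i

end Pool.Agent.R905.GB
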