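import Pool.Agent.R905.GB.Defs

/-!
# Smooth projective varieties and varieties built from them: definitions
-/

set_option autoImplicit false

open TensorProduct

namespace Pool.Agent.R905.GB

/-- A bilinear form on `A × B` with values in the field `k`. -/
def Pairing (k A B : Type) [Field k] [AddCommGroup A] [Module k A] [AddCommGroup B]
    [Module k B] : Type := A →ₗ[k] B →ₗ[k] k

/-- The value of a bilinear form. -/
def Pairing.val {k A B : Type} [Field k] [AddCommGroup A] [Module k A] [AddCommGroup B]
    [Module k B] (Q : Pairing k A B) (a : A) (b : B) : k := (show A →ₗ[k] B →ₗ[k] k from Q) a b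

variable {V : Type} {C : Chow V} {K : Type} [Field K] [Algebra ℚ K]

/-- The duality of Poincaré between `H_{2i}(X̄, ℚ_ℓ(i))` and `H_{2j}(X̄, ℚ_ℓ(j))`, for `X` smooth and
projective of pure dimension `i + j`: a bilinear form, invariant under the Frobenius, without left
kernel, and compatible with the intersection numbers `B` of cycles. -/
structure Duality (T : Homology C K) {X : V} {i j : ℤ} (B : Pairing ℚ (C.CH X i) (C.CH X j)) where
  /-- the pairing of Poincaré -/
  Q : Pairing K (T.E X i) (T.E X j)
  frob : ∀ x y, Q.val (T.frob X i x) (T.frob X j y) = Q.val x y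
  left : ∀ x, (∀ y, Q.val x y = 0) → x = 0
  cl : ∀ x y, Q.val (T.cl X i (1 ⊗ₜ x)) (T.cl X j (1 ⊗ₜ y)) = algebraMap ℚ K (B.val x y)

/-- The multiplicity of the eigenvalue one of the Frobenius on `H_{2i}(X̄, ℚ_ℓ(i))`. -/
noncomputable def Homology.mult (T : Homology C K) (X : V) (i : ℤ) : ℕ :=
  Module.finrank K (Module.End.maxGenEigenspace (T.frob X i) 1)

variable {Λ : Type} {F : Λ → Type} [∀ l, Field (F l)] [∀ l, Algebra ℚ (F l)]

/-- The properties of smooth projective varieties (of pure dimension) which are used: the cycles of
each dimension `i` have a duality as above with the cycles of another dimension `j` (for all primes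
`ℓ : Λ`, with the same intersection numbers), and the multiplicity of the eigenvalue one of the
Frobenius on `H_{2i}(X̄, ℚ_ℓ(i))` does not depend on `ℓ` (Deligne). -/
structure SmoothProjective (T : ∀ l : Λ, Homology C (F l)) (X : V) : Prop where
  dual : ∀ i, ∃ j, ∃ B : Pairing ℚ (C.CH X i) (C.CH X j), ∀ l, Nonempty (Duality (T l) B)
  mult : ∀ i l l', (T l).mult X i = (T l').mult X i

/-- The varieties which can be built in finitely many steps from varieties with the property `S`,
where each step is a presentation (of Chow groups, and of homology for all `ℓ`). All varieties over a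
finite field can be built from smooth projective varieties: the proper ones by alterations (de Jong),
the others as complements of closed subvarieties of proper ones (Nagata). -/
inductive Built (T : ∀ l : Λ, Homology C (F l)) (S : V → Prop) : V → Prop
  | base (X : V) (h : S X) : Built T S X
  | step (X : V) (I₁ I₀ : Type) [Fintype I₁] [Fintype I₀] (X₁ : I₁ → V) (X₀ : I₀ → V)
      (h : ∀ i, ∃ c : ChowPres C i X₁ X₀ X, ∀ l, Nonempty (HomPres (T l) c))
      (h₁ : ∀ k, Built T S (X₁ k)) (h₀ : ∀ k, Built T S (X₀ k)) : Built T S X

/-- Each cycle of dimension `i` on `X` comes from a closed subvariety of dimension at most `i`: its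
support; more precisely this holds simultaneously for finitely many cycles. -/
def HasSupports (T : Homology C K) (X : V) (i : ℤ) : Prop :=
  ∀ S : Finset (C.CH X i), ∃ (Z U : V) (c : Localization C i Z X U), Nonempty (ClosedPair T c) ∧
    ∀ x ∈ S, ∃ z : C.CH Z i, c.d (fun _ => z) = fun _ => x

end Pool.Agent.R905.GB
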