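import Pool.Agent.R905.GB.DefsTwo

/-!
# Semisimplicity from surjectivity
-/

set_option autoImplicit false

open TensorProduct

namespace Pool.Agent.R905.GB

variable {V : Type} {C : Chow V} {K : Type} [Field K] [Algebra ℚ K] {T : Homology C K}

lemma gen_of_inv {X : V} {i : ℤ} {e : T.E X i} (h : T.frob X i e = e) : T.Gen e := by
  rw [Homology.Gen, Module.End.mem_maxGenEigenspace]
  refine ⟨1, ?_⟩
  rw [pow_one, one_smul, LinearMap.sub_apply, h, Module.End.one_apply, sub_self]

lemma gen_cl {X : V} {i : ℤ} (x : K ⊗[ℚ] C.CH X i) : T.Gen (T.cl X i x) :=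
  gen_of_inv (T.frob_cl X i x)

lemma gen_iff {X : V} {i : ℤ} {e : T.E X i} :
    T.Gen e ↔ ∃ k, ((T.frob X i - 1 : Module.End K (T.E X i)) ^ k) e = 0 := by
  rw [Homology.Gen, Module.End.mem_maxGenEigenspace, one_smul]

/-- If the only invariant is zero then the generalized eigenspace is zero. -/
lemma gen_eq_zero {X : V} {i : ℤ} (h : ∀ e : T.E X i, T.frob X i e = e → e = 0)
    {e : T.E X i} (he : T.Gen e) : e = 0 := by
  obtain ⟨k, hk⟩ := gen_iff.1 he
  induction k generalizing e with
  | zero => simpa using hk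
  | succ k ih =>
    rw [pow_succ, Module.End.mul_apply] at hk
    have h1 := ih (gen_iff.2 ⟨k, hk⟩) hk
    rw [LinearMap.sub_apply, Module.End.one_apply, sub_eq_zero] at h1
    exact h e h1

lemma cl_smul (T : Homology C K) (X : V) (i : ℤ) (a : K) (x : C.CH X i) :
    T.cl X i (a ⊗ₜ x) = a • T.cl X i (1 ⊗ₜ x) := by
  rw [← map_smul, TensorProduct.smul_tmul', smul_eq_mul, mul_one]

/-- A family of elements of the tensor products comes from an element of the tensor product. -/
lemma exists_family {I : Type} [Fintype I] (Y : I → V) (i : ℤ)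
    (w : ∀ k, K ⊗[ℚ] C.CH (Y k) i) : ∃ z : K ⊗[ℚ] (∀ k, C.CH (Y k) i),
    ∀ k, LinearMap.baseChange K (LinearMap.proj k) z = w k := by
  classical
  refine ⟨∑ k, LinearMap.baseChange K (LinearMap.single ℚ (fun k => C.CH (Y k) i) k) (w k),
    fun k => ?_⟩
  rw [map_sum, Finset.sum_eq_single k]
  · rw [← LinearMap.comp_apply, ← LinearMap.baseChange_comp, LinearMap.proj_comp_single_same,
      LinearMap.baseChange_id]
    rfl
  · intro j _ hj
    rw [← LinearMap.comp_apply, ← LinearMap.baseChange_comp,
      LinearMap.proj_comp_single_ne ℚ _ _ _ hj.symm, LinearMap.baseChange_zero,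
      LinearMap.zero_apply]
  · intro h
    exact absurd (Finset.mem_univ k) h

lemma family_ext {I : Type} [Fintype I] (Y : I → V) (i : ℤ)
    (z z' : K ⊗[ℚ] (∀ k, C.CH (Y k) i)) (h : ∀ k, LinearMap.baseChange K (LinearMap.proj k) z =
      LinearMap.baseChange K (LinearMap.proj k) z') : z = z' := by
  classical
  have h1 : ∀ z : K ⊗[ℚ] (∀ k, C.CH (Y k) i), z =
      ∑ k, LinearMap.baseChange K (LinearMap.single ℚ (fun k => C.CH (Y k) i) k)
        (LinearMap.baseChange K (LinearMap.proj k) z) := by
    intro z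
    induction z using TensorProduct.induction_on with
    | zero => simp
    | tmul a x =>
      simp only [LinearMap.baseChange_tmul]
      rw [← TensorProduct.tmul_sum]
      congr 1
      exact (Finset.univ_sum_single x).symm
    | add a b ha hb =>
      simp only [map_add, Finset.sum_add_distrib]
      rw [← ha, ← hb]
  rw [h1 z, h1 z']
  exact Finset.sum_congr rfl fun k _ => by rw [h k]

section Pres

variable {i : ℤ} {I₁ I₀ : Type} [Fintype I₁] [Fintype I₀] {X₁ : I₁ → V} {X₀ : I₀ → V} {X : V}
  {c : ChowPres C i X₁ X₀ X} (h : HomPres T c)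

abbrev HomPres.D : (∀ k, T.E (X₁ k) i) →ₗ[K] (∀ k, T.E (X₀ k) i) := h.maps.D

abbrev HomPres.P : (∀ k, T.E (X₀ k) i) →ₗ[K] T.E X i := h.maps.P

lemma HomPres.frob_P (e : ∀ k, T.E (X₀ k) i) :
    h.P (fun k => T.frob (X₀ k) i (e k)) = T.frob X i (h.P e) := h.frob.2 e

lemma HomPres.cl_D (x : ∀ k, C.CH (X₁ k) i) :
    h.D (fun k => T.cl (X₁ k) i (1 ⊗ₜ x k)) = fun k => T.cl (X₀ k) i (1 ⊗ₜ c.d x k) :=
  h.cl.1 x

lemma HomPres.cl_P (x : ∀ k, C.CH (X₀ k) i) :
    h.P (fun k => T.cl (X₀ k) i (1 ⊗ₜ x k)) = T.cl X i (1 ⊗ₜ c.p x) := h.cl.2 x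

lemma HomPres.P_D (e : ∀ k, T.E (X₁ k) i) : h.P (h.D e) = 0 := h.gen.1 e

lemma HomPres.gen_exact (e : ∀ k, T.E (X₀ k) i) (he : ∀ k, T.Gen (e k))
    (h0 : h.P e = 0) : ∃ e', (∀ k, T.Gen (e' k)) ∧ h.D e' = e := h.gen.2.1 e he h0

lemma HomPres.gen_surj (e : T.E X i) (he : T.Gen e) :
    ∃ e', (∀ k, T.Gen (e' k)) ∧ h.P e' = e := h.gen.2.2 e he

lemma cl_P_tensor (z : K ⊗[ℚ] (∀ k, C.CH (X₀ k) i)) :
    h.P (fun k => T.cl (X₀ k) i (LinearMap.baseChange K (LinearMap.proj k) z)) =
      T.cl X i (LinearMap.baseChange K c.p z) := by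
  induction z using TensorProduct.induction_on with
  | zero =>
    simp only [map_zero]
    exact map_zero h.P
  | tmul a x =>
    have h1 : (fun k => T.cl (X₀ k) i (LinearMap.baseChange K (LinearMap.proj k) (a ⊗ₜ x))) =
        a • fun k => T.cl (X₀ k) i (1 ⊗ₜ x k) := by
      funext k
      rw [LinearMap.baseChange_tmul, cl_smul]
      rfl
    rw [h1, map_smul, h.cl_P, LinearMap.baseChange_tmul]
    exact (cl_smul T X i a (c.p x)).symm
  | add a b ha hb =>
    have h1 : (fun k => T.cl (X₀ k) i (LinearMap.baseChange K (LinearMap.proj k) (a + b))) =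
        (fun k => T.cl (X₀ k) i (LinearMap.baseChange K (LinearMap.proj k) a)) +
        fun k => T.cl (X₀ k) i (LinearMap.baseChange K (LinearMap.proj k) b) := by
      funext k
      rw [map_add, map_add]
      rfl
    rw [h1, map_add, ha, hb, map_add, map_add]

lemma cl_D_tensor (z : K ⊗[ℚ] (∀ k, C.CH (X₁ k) i)) :
    h.D (fun k => T.cl (X₁ k) i (LinearMap.baseChange K (LinearMap.proj k) z)) =
      fun k => T.cl (X₀ k) i (LinearMap.baseChange K (LinearMap.proj k)
        (LinearMap.baseChange K c.d z)) := by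
  induction z using TensorProduct.induction_on with
  | zero =>
    simp only [map_zero]
    exact map_zero h.D
  | tmul a x =>
    have h1 : (fun k => T.cl (X₁ k) i (LinearMap.baseChange K (LinearMap.proj k) (a ⊗ₜ x))) =
        a • fun k => T.cl (X₁ k) i (1 ⊗ₜ x k) := by
      funext k
      rw [LinearMap.baseChange_tmul, cl_smul]
      rfl
    rw [h1, map_smul, h.cl_D]
    funext k
    rw [LinearMap.baseChange_tmul, LinearMap.baseChange_tmul, cl_smul]
    rfl
  | add a b ha hb =>
    have h1 : (fun k => T.cl (X₁ k) i (LinearMap.baseChange K (LinearMap.proj k) (a + b))) =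
        (fun k => T.cl (X₁ k) i (LinearMap.baseChange K (LinearMap.proj k) a)) +
        fun k => T.cl (X₁ k) i (LinearMap.baseChange K (LinearMap.proj k) b) := by
      funext k
      rw [map_add, map_add]
      rfl
    rw [h1, map_add, ha, hb]
    funext k
    rw [map_add, map_add, map_add]
    rfl

lemma exists_cl_P (w : ∀ k, K ⊗[ℚ] C.CH (X₀ k) i) :
    ∃ z, T.cl X i z = h.P (fun k => T.cl (X₀ k) i (w k)) := by
  obtain ⟨z, hz⟩ := exists_family X₀ i w
  refine ⟨LinearMap.baseChange K c.p z, ?_⟩
  rw [← cl_P_tensor h]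
  simp only [hz]

include h in
/-- If the cycle class maps are isomorphisms onto the generalized eigenspaces for two families which
present `X`, the same is true for `X`. -/
theorem HomPres.iso (h1 : ∀ k, T.Iso (X₁ k) i ∧ T.Semisimple (X₁ k) i)
    (h0 : ∀ k, T.Iso (X₀ k) i ∧ T.Semisimple (X₀ k) i) :
    T.Iso X i ∧ T.Semisimple X i := by
  have key : ∀ e : T.E X i, T.Gen e → ∃ z, T.cl X i z = e := by
    intro e he
    obtain ⟨e', he', rfl⟩ := h.gen_surj e he
    have h2 : ∀ k, ∃ w, T.cl (X₀ k) i w = e' k := fun k =>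
      (h0 k).1.2 _ ((h0 k).2 _ (he' k))
    choose w hw using h2
    obtain ⟨z, hz⟩ := exists_cl_P h w
    refine ⟨z, ?_⟩
    rw [hz]
    congr 1
    funext k
    exact hw k
  refine ⟨⟨?_, fun e he => key e (gen_of_inv he)⟩, fun e he => ?_⟩
  · rw [injective_iff_map_eq_zero]
    intro z hz
    obtain ⟨z0, rfl⟩ := LinearMap.lTensor_surjective K c.surj z
    have hz' : h.P (fun k => T.cl (X₀ k) i (LinearMap.baseChange K (LinearMap.proj k) z0)) =
        0 := by
      rw [cl_P_tensor]
      exact hz
    obtain ⟨e1, he1, he2⟩ := h.gen_exact _ (fun k => gen_cl _) hz'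
    have h2 : ∀ k, ∃ w, T.cl (X₁ k) i w = e1 k := fun k =>
      (h1 k).1.2 _ ((h1 k).2 _ (he1 k))
    choose w hw using h2
    obtain ⟨z1, hz1⟩ := exists_family X₁ i w
    have h3 : (fun k => T.cl (X₁ k) i (LinearMap.baseChange K (LinearMap.proj k) z1)) = e1 := by
      funext k
      rw [hz1, hw]
    have h4 := cl_D_tensor h z1
    rw [h3, he2] at h4
    have h5 : z0 = LinearMap.baseChange K c.d z1 :=
      family_ext X₀ i _ _ fun k => (h0 k).1.1 (congrFun h4 k)
    rw [h5]
    have h6 : (LinearMap.baseChange K c.p) (LinearMap.baseChange K c.d z1) = 0 := by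
      rw [← LinearMap.comp_apply, ← LinearMap.baseChange_comp, c.exact.linearMap_comp_eq_zero,
        LinearMap.baseChange_zero, LinearMap.zero_apply]
    exact h6
  · obtain ⟨z, rfl⟩ := key e he
    exact T.frob_cl X i z

end Pres

/-- Surjectivity for the complements of closed subvarieties of dimension at most `i` is equivalent to
surjectivity and semisimplicity for `X`. -/
theorem surj_complements_iff (X : V) (i : ℤ) (hsupp : HasSupports T X i) :
    (∀ Z U (c : Localization C i Z X U), ClosedPair T c → T.Surj U i) ↔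
      T.Surj X i ∧ T.Semisimple X i := by
  classical
  constructor
  · intro h
    -- finitely many cycles whose classes span
    let s : Set (T.E X i) := Set.range fun x : C.CH X i => T.cl X i (1 ⊗ₜ x)
    have hs : ∀ x, T.cl X i x ∈ Submodule.span K s := by
      intro x
      induction x using TensorProduct.induction_on with
      | zero => rw [map_zero]; exact Submodule.zero_mem _
      | tmul a x =>
        rw [cl_smul]
        exact Submodule.smul_mem _ _ (Submodule.subset_span ⟨x, rfl⟩)
      | add a b ha hb => rw [map_add]; exact Submodule.add_mem _ ha hb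
    obtain ⟨s', hs', hss⟩ := (Submodule.fg_span_iff_fg_span_finset_subset s).1
      (IsNoetherian.noetherian (Submodule.span K s))
    have hc : ∀ e : s', ∃ x : C.CH X i, T.cl X i (1 ⊗ₜ x) = e := fun e => hs' e.2
    choose g hg using hc
    obtain ⟨Z, U, c, ⟨q⟩, hc⟩ := hsupp (s'.attach.image g)
    have hU := h Z U c q
    -- the classes come from `Z`
    have hA : ∀ x, ∃ z : T.E Z i, q.pres.D (fun _ => z) = fun _ => T.cl X i x := by
      let a : T.E Z i →ₗ[K] (Unit → T.E X i) :=
        q.pres.D ∘ₗ LinearMap.pi fun _ => LinearMap.id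
      let b : T.E X i →ₗ[K] (Unit → T.E X i) := LinearMap.pi fun _ => LinearMap.id
      have h2 : Submodule.span K (s' : Set (T.E X i)) ≤ (LinearMap.range a).comap b := by
        rw [Submodule.span_le]
        intro e he
        obtain ⟨z, hz⟩ := hc (g ⟨e, he⟩) (Finset.mem_image_of_mem _ (Finset.mem_attach _ _))
        refine ⟨T.cl Z i (1 ⊗ₜ z), ?_⟩
        have h3 := q.pres.cl_D (fun _ => z)
        rw [hz] at h3
        refine h3.trans ?_
        funext k
        exact hg ⟨e, he⟩
      intro x
      have h3 : T.cl X i x ∈ Submodule.span K (s' : Set (T.E X i)) := hss ▸ hs x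
      obtain ⟨z, hz⟩ := h2 h3
      exact ⟨z, hz⟩
    -- `U` has no algebraic classes
    have h0 : ∀ z, T.cl U i z = 0 := by
      intro z
      obtain ⟨z0, rfl⟩ := LinearMap.lTensor_surjective K c.surj z
      have h2 := cl_P_tensor q.pres z0
      obtain ⟨y, hy⟩ := hA (LinearMap.baseChange K (LinearMap.proj ()) z0)
      have h3 := q.pres.P_D (fun _ => y)
      rw [hy] at h3
      exact h2.symm.trans h3
    have h1 : ∀ e : T.E U i, T.Gen e → e = 0 := fun e he => gen_eq_zero (fun e he => by
      obtain ⟨x, rfl⟩ := hU e he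
      exact h0 x) he
    have key : ∀ e : T.E X i, T.Gen e → ∃ x, T.cl X i x = e := by
      intro e he
      have h2 : q.pres.P (fun _ => e) = 0 := by
        apply h1
        obtain ⟨k, hk⟩ := gen_iff.1 he
        refine gen_iff.2 ⟨k, ?_⟩
        have h3 : ∀ (k : ℕ) (e : T.E X i),
            ((T.frob U i - 1 : Module.End K (T.E U i)) ^ k) (q.pres.P (fun _ => e)) =
            q.pres.P (fun _ => ((T.frob X i - 1 : Module.End K (T.E X i)) ^ k) e) := by
          intro k
          induction k with
          | zero => intro e; rfl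
          | succ k ih =>
            intro e
            rw [pow_succ, pow_succ, Module.End.mul_apply, Module.End.mul_apply, ← ih]
            congr 1
            rw [LinearMap.sub_apply, LinearMap.sub_apply, Module.End.one_apply,
              Module.End.one_apply]
            have h4 := q.pres.frob_P (fun _ => e)
            rw [← h4, ← map_sub]
            rfl
        rw [h3, hk]
        exact map_zero q.pres.P
      obtain ⟨e', hge, he'⟩ := q.pres.gen_exact (fun _ => e) (fun _ => he) h2
      obtain ⟨w, hw⟩ := q.span (e' ()) (hge ())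
      obtain ⟨z1, hz1⟩ := exists_family (fun _ : Unit => Z) i (fun _ => w)
      have h4 := cl_D_tensor q.pres z1
      have h5 : (fun k : Unit => T.cl Z i (LinearMap.baseChange K (LinearMap.proj k) z1)) =
          e' := by
        funext k
        rw [hz1]
        exact hw
      rw [h5, he'] at h4
      exact ⟨_, (congrFun h4 ()).symm⟩
    exact ⟨fun e he => key e (gen_of_inv he), fun e he => by
      obtain ⟨x, rfl⟩ := key e he
      exact T.frob_cl X i x⟩
  · rintro ⟨h1, h2⟩ Z U c q e he
    obtain ⟨e', he', rfl⟩ := q.pres.gen_surj e (gen_of_inv he)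
    obtain ⟨w, hw⟩ := h1 (e' ()) (h2 _ (he' ()))
    obtain ⟨z, hz⟩ := exists_cl_P q.pres (fun _ => w)
    refine ⟨z, ?_⟩
    rw [hz]
    congr 1
    funext k
    exact hw

/-- The version with isomorphisms. -/
theorem iso_complements_iff (X : V) (i : ℤ) (hsupp : HasSupports T X i) (hX : T.Iso X i) :
    (∀ Z U (c : Localization C i Z X U), ClosedPair T c → T.Iso U i) ↔ T.Semisimple X i := by
  have h0 := surj_complements_iff X i hsupp
  constructor
  · intro h
    exact (h0.1 fun Z U c q => (h Z U c q).2).2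
  · intro h Z U c q
    refine ⟨?_, h0.2 ⟨hX.2, h⟩ Z U c q⟩
    rw [injective_iff_map_eq_zero]
    intro z hz
    obtain ⟨z0, rfl⟩ := LinearMap.lTensor_surjective K c.surj z
    have hz' : q.pres.P (fun k => T.cl X i (LinearMap.baseChange K (LinearMap.proj k) z0)) =
        0 := by
      rw [cl_P_tensor]
      exact hz
    obtain ⟨e1, hge, he2⟩ := q.pres.gen_exact _ (fun k => gen_cl _) hz'
    obtain ⟨w, hw⟩ := q.span (e1 ()) (hge ())
    obtain ⟨z1, hz1⟩ := exists_family (fun _ : Unit => Z) i (fun _ => w)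
    have h3 : (fun k : Unit => T.cl Z i (LinearMap.baseChange K (LinearMap.proj k) z1)) =
        e1 := by
      funext k
      rw [hz1]
      exact hw
    have h4 := cl_D_tensor q.pres z1
    rw [h3, he2] at h4
    have h5 : z0 = LinearMap.baseChange K c.d z1 :=
      family_ext (fun _ : Unit => X) i _ _ fun k => hX.1 (congrFun h4 k)
    rw [h5]
    have h6 : (LinearMap.baseChange K c.p) (LinearMap.baseChange K c.d z1) = 0 := by
      rw [← LinearMap.comp_apply, ← LinearMap.baseChange_comp, c.exact.linearMap_comp_eq_zero,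
        LinearMap.baseChange_zero, LinearMap.zero_apply]
    exact h6

end Pool.Agent.R905.GB
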