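import Pool.Agent.R905.GB.DefsTwo

/-!
# Numerical equivalence and the order of the pole: definitions
-/

set_option autoImplicit false

open TensorProduct

namespace Pool.Agent.R905.GB

/-- The bilinear form with exchanged arguments. -/
def Pairing.swap {k A B : Type} [Field k] [AddCommGroup A] [Module k A] [AddCommGroup B]
    [Module k B] (Q : Pairing k A B) : Pairing k B A :=
  (show A →ₗ[k] B →ₗ[k] k from Q).flip

variable {V : Type} {C : Chow V}

/-- The numerically trivial elements of `CH_i(X)_ℚ` for the intersection numbers `B` between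
`CH_i(X)_ℚ` and `CH_j(X)_ℚ`. -/
def numTrivial {X : V} {i j : ℤ} (B : Pairing ℚ (C.CH X i) (C.CH X j)) :
    Submodule ℚ (C.CH X i) :=
  LinearMap.ker (show C.CH X i →ₗ[ℚ] C.CH X j →ₗ[ℚ] ℚ from B)

/-- The cycles of dimension `i` modulo numerical equivalence. -/
abbrev Num {X : V} {i j : ℤ} (B : Pairing ℚ (C.CH X i) (C.CH X j)) : Type :=
  C.CH X i ⧸ numTrivial B

/-- `X` is smooth and projective of pure dimension `i + j`, with the intersection numbers `B` between
cycles of dimension `i` and `j`, and `p = - ord_{s = j} ζ(X, s) = - ord_{s = i} ζ(X, s)`: the duality of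
Poincaré for all primes `ℓ : Λ`, and the formula of Grothendieck and Deligne for the order of the pole
as the multiplicity of the eigenvalue one of the Frobenius. -/
structure IsSmoothProjective {Λ : Type} {F : Λ → Type} [∀ l, Field (F l)] [∀ l, Algebra ℚ (F l)]
    (T : ∀ l : Λ, Homology C (F l)) {X : V} {i j : ℤ} (B : Pairing ℚ (C.CH X i) (C.CH X j))
    (p : ℕ) : Prop where
  dual : ∀ l, Nonempty (Duality (T l) B)
  dual' : ∀ l, Nonempty (Duality (T l) B.swap)
  pole : ∀ l, (T l).mult X i = p
  pole' : ∀ l, (T l).mult X j = p

/-- The cycle class map is surjective onto the invariants of the Frobenius, in dimension `i`, for all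
complements of closed subvarieties of dimension at most `i` in `X`. -/
def OpenTate {K : Type} [Field K] [Algebra ℚ K] (T : Homology C K) (X : V) (i : ℤ) : Prop :=
  ∀ Z U (c : Localization C i Z X U), ClosedPair T c → T.Surj U i

end Pool.Agent.R905.GB
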