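import Pool.Agent.R905.GB.StrongTwo
import Pool.Agent.R905.GB.PoleDefs

/-!
# The order of the pole and the complements of closed subvarieties
-/

set_option autoImplicit false

open TensorProduct

namespace Pool.Agent.R905.GB

section One

variable {V : Type} {C : Chow V} {K : Type} [Field K] [Algebra ℚ K] {T : Homology C K}

/-- If the number of cycles modulo numerical equivalence is the multiplicity of the eigenvalue one,
then the cycle classes are the whole generalized eigenspace. -/
lemma surj_of_rank {X : V} {i j : ℤ} {B : Pairing ℚ (C.CH X i) (C.CH X j)} (D : Duality T B)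
    (h : Module.finrank ℚ (C.CH X i ⧸ num B) = T.mult X i) :
    T.Surj X i ∧ T.Semisimple X i := by
  obtain ⟨x, hx, hy⟩ := exists_basis D
  have h4 := linearIndependent_cl D x hx
  have h5 : Submodule.span K (Set.range fun t => T.cl X i (1 ⊗ₜ x t)) =
      Module.End.maxGenEigenspace (T.frob X i) 1 := by
    apply Submodule.eq_of_le_of_finrank_eq
    · rw [Submodule.span_le]
      rintro _ ⟨t, rfl⟩
      exact gen_cl _
    · rw [finrank_span_eq_card h4, Fintype.card_fin, h]
      rfl
  have h6 : ∀ e : T.E X i, T.Gen e → ∃ z, T.cl X i z = e := by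
    intro e he
    have h7 : e ∈ Submodule.span K (Set.range fun t => T.cl X i (1 ⊗ₜ x t)) := h5 ▸ he
    have h8 : Submodule.span K (Set.range fun t => T.cl X i (1 ⊗ₜ x t)) ≤
        LinearMap.range (T.cl X i) := by
      rw [Submodule.span_le]
      rintro _ ⟨t, rfl⟩
      exact ⟨_, rfl⟩
    exact h8 h7
  refine ⟨fun e he => h6 e (gen_of_inv he), fun e he => ?_⟩
  obtain ⟨z, rfl⟩ := h6 e he
  exact T.frob_cl X i z

/-- The number of cycles modulo numerical equivalence from surjectivity and semisimplicity. -/
lemma rank_of_surj {X : V} {i j : ℤ} {B : Pairing ℚ (C.CH X i) (C.CH X j)} (D : Duality T B)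
    (hi : T.Surj X i) (si : T.Semisimple X i) (hj : T.Surj X j) (sj : T.Semisimple X j) :
    Module.finrank ℚ (C.CH X i ⧸ num B) = T.mult X i := by
  have hN : num B ≤ T.HomTriv X i := fun x hx => cl_eq_zero_of_num D hj sj (mem_num.1 hx)
  have hN' : T.HomTriv X i = num B := le_antisymm (homTriv_le_num D) hN
  rw [← hN']
  exact (strong_of hi (inj_of D hN) si).rank

/-- Semisimplicity passes to the dual. -/
lemma semisimple_dual {X : V} {i j : ℤ} {B : Pairing ℚ (C.CH X i) (C.CH X j)} (D : Duality T B)
    (si : T.Semisimple X i) (hm : T.mult X i = T.mult X j) : T.Semisimple X j := by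
  let Q : T.E X i →ₗ[K] T.E X j →ₗ[K] K := D.Q
  let Ni : T.E X i →ₗ[K] T.E X i := T.frob X i - LinearMap.id
  let Nj : T.E X j →ₗ[K] T.E X j := T.frob X j - LinearMap.id
  -- invariants in dimension `i` are functionals on the coinvariants in dimension `j`
  let q : LinearMap.ker Ni →ₗ[K] Module.Dual K (T.E X j ⧸ LinearMap.range Nj) :=
    { toFun := fun x => (LinearMap.range Nj).liftQ (Q x.1) (by
        rintro _ ⟨y, rfl⟩
        have h1 : T.frob X i x.1 = x.1 := sub_eq_zero.1 x.2
        have h2 : Q (T.frob X i x.1) (T.frob X j y) = Q x.1 y := D.frob _ _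
        rw [h1] at h2
        rw [LinearMap.mem_ker]
        change Q x.1 (T.frob X j y - y) = 0
        rw [map_sub, h2, sub_self])
      map_add' := fun x y => by
        ext w
        simp
      map_smul' := fun a x => by
        ext w
        simp }
  have hq : Function.Injective q := by
    rw [injective_iff_map_eq_zero]
    intro x hx
    apply Subtype.ext
    apply D.left
    intro y
    have h1 := congrArg (fun f => f (Submodule.Quotient.mk y)) hx
    exact h1
  have h1 := LinearMap.finrank_le_finrank_of_injective hq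
  rw [Subspace.dual_finrank_eq] at h1
  have h2 := (LinearMap.range Nj).finrank_quotient_add_finrank
  have h3 := Nj.finrank_range_add_finrank_ker
  have h4 : Module.finrank K (LinearMap.ker Ni) = T.mult X i := by
    have h5 : LinearMap.ker Ni = Module.End.maxGenEigenspace (T.frob X i) 1 := by
      apply le_antisymm
      · intro e he
        exact gen_of_inv (sub_eq_zero.1 he)
      · intro e he
        exact sub_eq_zero.2 (si e he)
    rw [h5]
    rfl
  have h5 : LinearMap.ker Nj = Module.End.maxGenEigenspace (T.frob X j) 1 := by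
    apply Submodule.eq_of_le_of_finrank_le
    · intro e he
      exact gen_of_inv (sub_eq_zero.1 he)
    · change T.mult X j ≤ _
      omega
  intro e he
  have h6 : e ∈ LinearMap.ker Nj := h5 ▸ he
  exact sub_eq_zero.1 h6

/-- The ranks of the groups of cycles modulo numerical equivalence in complementary dimensions. -/
lemma rank_swap {X : V} {i j : ℤ} {B : Pairing ℚ (C.CH X i) (C.CH X j)} (D : Duality T B) :
    Module.finrank ℚ (C.CH X j ⧸ num B.swap) = Module.finrank ℚ (C.CH X i ⧸ num B) := by
  obtain ⟨x, hx, hy⟩ := exists_basis D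
  let B' : C.CH X i →ₗ[ℚ] C.CH X j →ₗ[ℚ] ℚ := B
  let L : C.CH X j →ₗ[ℚ] (Fin (Module.finrank ℚ (C.CH X i ⧸ num B)) → ℚ) :=
    LinearMap.pi fun k => B' (x k)
  have hL : LinearMap.range L = ⊤ := by
    by_contra hne
    obtain ⟨f, hf, hf0⟩ := Submodule.exists_le_ker_of_lt_top _ (lt_top_iff_ne_top.2 hne)
    have h1 : ∀ v, f v = ∑ k, v k * f (Pi.single k 1) := by
      intro v
      conv_lhs => rw [← Finset.univ_sum_single v]
      rw [map_sum]
      refine Finset.sum_congr rfl fun k _ => ?_
      have h2 : (Pi.single k (v k) : Fin (Module.finrank ℚ (C.CH X i ⧸ num B)) → ℚ) =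
          v k • Pi.single k 1 := by
        rw [← Pi.single_smul, smul_eq_mul, mul_one]
      rw [h2, map_smul, smul_eq_mul]
    have h2 : ∑ k, f (Pi.single k 1) • (num B).mkQ (x k) = 0 := by
      have h5 : ∑ k, f (Pi.single k 1) • (num B).mkQ (x k) =
          (num B).mkQ (∑ k, f (Pi.single k 1) • x k) := by
        rw [map_sum]
        exact Finset.sum_congr rfl fun k _ => (map_smul _ _ _).symm
      rw [h5, Submodule.mkQ_apply, Submodule.Quotient.mk_eq_zero, mem_num]
      intro y
      have h3 : f (L y) = 0 := hf0 ⟨y, rfl⟩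
      rw [h1] at h3
      change B' _ y = 0
      rw [map_sum, LinearMap.sum_apply]
      rw [← h3]
      refine Finset.sum_congr rfl fun k _ => ?_
      rw [map_smul, LinearMap.smul_apply, smul_eq_mul, mul_comm]
      rfl
    have h3 := Fintype.linearIndependent_iff.1 hx _ h2
    apply hf
    ext k
    simpa using h3 k
  have hk : LinearMap.ker L = num B.swap := by
    ext y
    rw [LinearMap.mem_ker, mem_num]
    constructor
    · intro h z
      obtain ⟨a, ha⟩ := hy z
      have h1 := mem_num.1 ha y
      change B' _ y = 0 at h1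
      change B' z y = 0
      rw [map_sub, LinearMap.sub_apply, sub_eq_zero, map_sum, LinearMap.sum_apply] at h1
      rw [h1]
      refine Finset.sum_eq_zero fun t _ => ?_
      have h2 : B' (x t) y = 0 := congrFun h t
      rw [map_smul, LinearMap.smul_apply, h2, smul_zero]
    · intro h
      funext t
      exact h (x t)
  rw [← hk, (LinearMap.quotKerEquivOfSurjective L (LinearMap.range_eq_top.1 hL)).finrank_eq]
  simp

end One

section Family

variable {V Λ : Type} {C : Chow V} {F : Λ → Type} [∀ l, Field (F l)] [∀ l, Algebra ℚ (F l)]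
  {T : ∀ l : Λ, Homology C (F l)}

theorem pole_iff {X : V} {i j : ℤ} {B : Pairing ℚ (C.CH X i) (C.CH X j)} {p : ℕ}
    (hX : IsSmoothProjective T B p) (l : Λ) (hi : HasSupports (T l) X i)
    (hj : HasSupports (T l) X j) :
    (Module.finrank ℚ (Num B) = p ↔ OpenTate (T l) X i ∧ (T l).Surj X j) ∧
      (Module.finrank ℚ (Num B) = p ↔ OpenTate (T l) X i ∧ OpenTate (T l) X j) := by
  have h0 : OpenTate (T l) X i ↔ (T l).Surj X i ∧ (T l).Semisimple X i :=
    surj_complements_iff X i hi
  have h0' : OpenTate (T l) X j ↔ (T l).Surj X j ∧ (T l).Semisimple X j :=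
    surj_complements_iff X j hj
  obtain ⟨D⟩ := hX.dual l
  obtain ⟨D'⟩ := hX.dual' l
  have h1 : Module.finrank ℚ (Num B) = p → OpenTate (T l) X i ∧ OpenTate (T l) X j := by
    intro h
    refine ⟨h0.2 (surj_of_rank D (h.trans (hX.pole l).symm)), h0'.2 (surj_of_rank D' ?_)⟩
    exact (rank_swap D).trans (h.trans (hX.pole' l).symm)
  have h2 : OpenTate (T l) X i ∧ (T l).Surj X j → Module.finrank ℚ (Num B) = p := by
    rintro ⟨h, h'⟩
    obtain ⟨h3, h4⟩ := h0.1 h
    have h5 := semisimple_dual D h4 ((hX.pole l).trans (hX.pole' l).symm)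
    exact (rank_of_surj D h3 h4 h' h5).trans (hX.pole l)
  exact ⟨⟨fun h => ⟨(h1 h).1, (h0'.1 (h1 h).2).1⟩, h2⟩,
    ⟨h1, fun h => h2 ⟨h.1, (h0'.1 h.2).1⟩⟩⟩

end Family

end Pool.Agent.R905.GB
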