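import Pool.Agent.R905.GB.Main

/-!
# Independence of the prime
-/

set_option autoImplicit false

open TensorProduct

namespace Pool.Agent.R905.GB

lemma one_tmul_eq_zero {L M : Type} [Field L] [Algebra ℚ L] [AddCommGroup M] [Module ℚ M] {x : M}
    (h : (1 : L) ⊗ₜ[ℚ] x = 0) : x = 0 := by
  have h1 := Module.Flat.tensorProduct_mk_injective ℚ M L
  exact h1 (h.trans (TensorProduct.tmul_zero _ _).symm)

section One

variable {V : Type} {C : Chow V} {K : Type} [Field K] [Algebra ℚ K] {T : Homology C K}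

/-- The Frobenius minus one: kernel and image span. -/
lemma ker_sup_range {X : V} {i : ℤ} (h : T.Semisimple X i) (w : T.E X i) :
    ∃ a b, T.frob X i a = a ∧ w = a + (T.frob X i b - b) := by
  let N : T.E X i →ₗ[K] T.E X i := T.frob X i - LinearMap.id
  have h1 : Disjoint (LinearMap.ker N) (LinearMap.range N) := by
    rw [Submodule.disjoint_def]
    rintro x hx ⟨y, rfl⟩
    have h2 : T.Gen y := gen_iff.2 ⟨2, by
      rw [pow_two, Module.End.mul_apply]
      exact hx⟩
    have h3 := h y h2
    change T.frob X i y - y = 0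
    rw [h3, sub_self]
  have h2 : LinearMap.ker N ⊔ LinearMap.range N = ⊤ := by
    apply Submodule.eq_top_of_finrank_eq
    have h3 := Submodule.finrank_sup_add_finrank_inf_eq (LinearMap.ker N) (LinearMap.range N)
    rw [disjoint_iff.1 h1, finrank_bot, add_zero] at h3
    have h4 := N.finrank_range_add_finrank_ker
    omega
  have h3 : w ∈ LinearMap.ker N ⊔ LinearMap.range N := h2 ▸ Submodule.mem_top
  obtain ⟨a, ha, _, ⟨b, rfl⟩, hab⟩ := Submodule.mem_sup.1 h3
  exact ⟨a, b, sub_eq_zero.1 ha, hab.symm⟩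

/-- The intersection pairing is non degenerate if the conjectures hold for one prime. -/
lemma nondegenerate {X : V} {i j : ℤ} {B : Pairing ℚ (C.CH X i) (C.CH X j)} (D : Duality T B)
    (h : T.Iso X i) (h' : T.Surj X j) (hs : T.Semisimple X j) {x : C.CH X i}
    (hx : ∀ y, B.val x y = 0) : x = 0 := by
  apply one_tmul_eq_zero (L := K)
  apply h.1
  rw [map_zero]
  apply D.left
  intro w
  obtain ⟨a, b, ha, rfl⟩ := ker_sup_range hs w
  obtain ⟨y, rfl⟩ := h' a ha
  let Q : T.E X i →ₗ[K] T.E X j →ₗ[K] K := D.Q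
  change Q _ _ = 0
  rw [map_add, map_sub]
  have h1 : Q (T.cl X i (1 ⊗ₜ x)) (T.frob X j b) = Q (T.cl X i (1 ⊗ₜ x)) b := by
    have h0 : Q (T.frob X i (T.cl X i (1 ⊗ₜ x))) (T.frob X j b) =
      Q (T.cl X i (1 ⊗ₜ x)) b := D.frob _ b
    rwa [T.frob_cl] at h0
  rw [h1, sub_self, add_zero]
  induction y using TensorProduct.induction_on with
  | zero => rw [map_zero, map_zero]
  | tmul c y =>
    have h0 : Q (T.cl X i (1 ⊗ₜ x)) (T.cl X j (1 ⊗ₜ y)) = algebraMap ℚ K (B.val x y) := D.cl x y
    rw [cl_smul T X j c y, map_smul, h0, hx, map_zero, smul_zero]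
  | add a b iha ihb =>
    rw [map_add, map_add, iha (T.frob_cl X j a), ihb (T.frob_cl X j b), add_zero]

/-- The rank of the Chow group. -/
lemma finite_of_iso {X : V} {i : ℤ} (h : T.Iso X i) (hs : T.Semisimple X i) :
    Module.Finite ℚ (C.CH X i) ∧ Module.finrank ℚ (C.CH X i) = T.mult X i := by
  have h1 : Module.Finite K (K ⊗[ℚ] C.CH X i) :=
    Module.Finite.of_injective (T.cl X i) h.1
  constructor
  · have h2 := Module.rank_lt_aleph0_iff.2 h1
    rw [Module.rank_baseChange, Cardinal.lift_lt_aleph0] at h2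
    exact Module.rank_lt_aleph0_iff.1 h2
  · have h2 : LinearMap.range (T.cl X i) = Module.End.maxGenEigenspace (T.frob X i) 1 := by
      apply le_antisymm
      · rintro _ ⟨x, rfl⟩
        exact gen_cl x
      · intro e he
        exact h.2 e (hs e he)
    rw [Homology.mult, ← h2, LinearMap.finrank_range_of_inj h.1, Module.finrank_baseChange]

/-- Linear independence from a non degenerate pairing. -/
lemma injective_of_pairing {X : V} {i j : ℤ} {B : Pairing ℚ (C.CH X i) (C.CH X j)}
    (D : Duality T B) [Module.Finite ℚ (C.CH X i)]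
    (hD : ∀ x : C.CH X i, (∀ y, B.val x y = 0) → x = 0) :
    Function.Injective (T.cl X i) := by
  let B' : C.CH X i →ₗ[ℚ] C.CH X j →ₗ[ℚ] ℚ := B
  let Q : T.E X i →ₗ[K] T.E X j →ₗ[K] K := D.Q
  have hcl : ∀ x y, Q (T.cl X i (1 ⊗ₜ x)) (T.cl X j (1 ⊗ₜ y)) = algebraMap ℚ K (B' x y) := D.cl
  let b := Module.finBasis ℚ (C.CH X i)
  let L : C.CH X j →ₗ[ℚ] (Fin (Module.finrank ℚ (C.CH X i)) → ℚ) :=
    LinearMap.pi fun k => B' (b k)
  have hL : LinearMap.range L = ⊤ := by
    by_contra hne
    obtain ⟨f, hf, hf0⟩ := Submodule.exists_le_ker_of_lt_top _ (lt_top_iff_ne_top.2 hne)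
    have h1 : ∀ v, f v = ∑ k, v k * f (Pi.single k 1) := by
      intro v
      conv_lhs => rw [← Finset.univ_sum_single v]
      rw [map_sum]
      refine Finset.sum_congr rfl fun k _ => ?_
      have h2 : (Pi.single k (v k) : Fin (Module.finrank ℚ (C.CH X i)) → ℚ) =
          v k • Pi.single k 1 := by
        rw [← Pi.single_smul, smul_eq_mul, mul_one]
      rw [h2, map_smul, smul_eq_mul]
    have h2 : ∑ k, f (Pi.single k 1) • b k = 0 := by
      apply hD
      intro y
      have h3 : f (L y) = 0 := hf0 ⟨y, rfl⟩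
      rw [h1] at h3
      change B' _ y = 0
      rw [map_sum, LinearMap.sum_apply]
      rw [← h3]
      refine Finset.sum_congr rfl fun k _ => ?_
      rw [map_smul, LinearMap.smul_apply, smul_eq_mul, mul_comm]
      rfl
    have h3 := Fintype.linearIndependent_iff.1 b.linearIndependent _ h2
    apply hf
    ext k
    simpa using h3 k
  rw [injective_iff_map_eq_zero]
  intro z hz
  obtain ⟨c, rfl⟩ : ∃ c : Fin (Module.finrank ℚ (C.CH X i)) → K, z = ∑ k, c k ⊗ₜ b k := by
    let bb := Algebra.TensorProduct.basis K b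
    refine ⟨fun k => bb.repr z k, ?_⟩
    conv_lhs => rw [← bb.sum_repr z]
    refine Finset.sum_congr rfl fun k _ => ?_
    rw [Algebra.TensorProduct.basis_apply, TensorProduct.smul_tmul', smul_eq_mul, mul_one]
  have h4 : ∀ y, ∑ k, c k * algebraMap ℚ K (B' (b k) y) = 0 := by
    intro y
    have h5 : Q (T.cl X i (∑ k, c k ⊗ₜ b k)) (T.cl X j (1 ⊗ₜ y)) = 0 := by
      rw [hz, map_zero, LinearMap.zero_apply]
    rw [map_sum, map_sum, LinearMap.sum_apply] at h5
    rw [← h5]
    refine Finset.sum_congr rfl fun k _ => ?_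
    rw [cl_smul, map_smul, LinearMap.smul_apply, hcl, smul_eq_mul]
  have h5 : ∀ t, c t = 0 := by
    intro t
    obtain ⟨y, hy⟩ : ∃ y, L y = Pi.single t 1 := by
      have : (Pi.single t 1 : Fin (Module.finrank ℚ (C.CH X i)) → ℚ) ∈ LinearMap.range L :=
        hL ▸ Submodule.mem_top
      exact this
    have h6 := h4 y
    rw [Finset.sum_eq_single t] at h6
    · have h7 : B' (b t) y = 1 := by
        have := congrFun hy t
        simpa [L] using this
      rw [h7, map_one, mul_one] at h6
      exact h6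
    · intro k _ hk
      have h7 : B' (b k) y = 0 := by
        have := congrFun hy k
        simpa [L, hk] using this
      rw [h7, map_zero, mul_zero]
    · intro h
      exact absurd (Finset.mem_univ t) h
  simp [h5]

end One

section Family

variable {V Λ : Type} {C : Chow V} {F : Λ → Type} [∀ l, Field (F l)] [∀ l, Algebra ℚ (F l)]
  {T : ∀ l : Λ, Homology C (F l)}

/-- Transfer for smooth projective varieties. -/
theorem SmoothProjective.transfer {X : V} (hX : SmoothProjective T X) (l l' : Λ)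
    (h : ∀ i, (T l).Iso X i ∧ (T l).Semisimple X i) (i : ℤ) :
    (T l').Iso X i ∧ (T l').Semisimple X i := by
  obtain ⟨j, B, D⟩ := hX.dual i
  obtain ⟨D1⟩ := D l
  obtain ⟨D2⟩ := D l'
  obtain ⟨h1, h2⟩ := finite_of_iso (h i).1 (h i).2
  have h3 : Function.Injective ((T l').cl X i) :=
    injective_of_pairing D2 fun x hx => nondegenerate D1 (h i).1 (h j).1.2 (h j).2 hx
  have h4 : LinearMap.range ((T l').cl X i) =
      Module.End.maxGenEigenspace ((T l').frob X i) 1 := by
    apply Submodule.eq_of_le_of_finrank_eq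
    · rintro _ ⟨x, rfl⟩
      exact gen_cl x
    · rw [LinearMap.finrank_range_of_inj h3, Module.finrank_baseChange, h2]
      exact hX.mult i l l'
  have h5 : ∀ e : (T l').E X i, (T l').Gen e → ∃ x, (T l').cl X i x = e := by
    intro e he
    have h6 : e ∈ LinearMap.range ((T l').cl X i) := h4 ▸ he
    exact h6
  refine ⟨⟨h3, fun e he => h5 e (gen_of_inv he)⟩, fun e he => ?_⟩
  obtain ⟨x, rfl⟩ := h5 e he
  exact (T l').frob_cl X i x

/-- Transfer for all varieties built from varieties with the property `S`. -/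
theorem Built.iso {S : V → Prop} (l : Λ)
    (h : ∀ X, S X → ∀ i, (T l).Iso X i ∧ (T l).Semisimple X i) {X : V} (hX : Built T S X)
    (i : ℤ) : (T l).Iso X i ∧ (T l).Semisimple X i := by
  induction hX with
  | base X hX => exact h X hX i
  | step X I₁ I₀ X₁ X₀ hp h₁ h₀ ih₁ ih₀ =>
    obtain ⟨c, hc⟩ := hp i
    obtain ⟨q⟩ := hc l
    exact q.iso ih₁ ih₀

/-- One prime suffices. -/
theorem one_prime (hB : ∀ X, Built T (SmoothProjective T) X)
    (hS : ∀ l X, SmoothProjective T X → ∀ i, HasSupports (T l) X i) (l : Λ)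
    (h : ∀ X i, (T l).Iso X i) (l' : Λ) (X : V) (i : ℤ) :
    (T l').Iso X i ∧ (T l').Semisimple X i :=
  (hB X).iso l' (fun Y hY => hY.transfer l l' fun i =>
    ⟨h Y i, (iso_complements_iff Y i (hS l Y hY i) (h Y i)).1 fun _ U _ _ => h U i⟩) i

end Family

end Pool.Agent.R905.GB
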