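import Pool.Agent.R905.GB.Prime
import Pool.Agent.R905.GB.DefsThree

/-!
# Surjectivity for all varieties implies the complete conjecture
-/

set_option autoImplicit false

open TensorProduct

namespace Pool.Agent.R905.GB

section Lin

variable {K A : Type} [Field K] [Algebra ℚ K] [AddCommGroup A] [Module ℚ A]

lemma mem_range_iff (N : Submodule ℚ A) (z : K ⊗[ℚ] A) :
    z ∈ LinearMap.range (LinearMap.baseChange K N.subtype) ↔
      LinearMap.baseChange K N.mkQ z = 0 := by
  have h := lTensor_exact K (f := N.subtype) (g := N.mkQ) (by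
    rw [LinearMap.exact_iff, Submodule.ker_mkQ, Submodule.range_subtype]) N.mkQ_surjective z
  constructor
  · rintro ⟨w, rfl⟩
    exact h.2 ⟨w, rfl⟩
  · intro hz
    obtain ⟨w, hw⟩ := h.1 hz
    exact ⟨w, hw⟩

end Lin

section One

variable {V : Type} {C : Chow V} {K : Type} [Field K] [Algebra ℚ K] {T : Homology C K}

lemma mem_homTriv {X : V} {i : ℤ} {x : C.CH X i} :
    x ∈ T.HomTriv X i ↔ T.cl X i (1 ⊗ₜ x) = 0 := Iff.rfl

lemma cl_range {X : V} {i : ℤ} {N : Submodule ℚ (C.CH X i)} (hN : N ≤ T.HomTriv X i)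
    {z : K ⊗[ℚ] C.CH X i} (hz : z ∈ LinearMap.range (LinearMap.baseChange K N.subtype)) :
    T.cl X i z = 0 := by
  obtain ⟨w, rfl⟩ := hz
  induction w using TensorProduct.induction_on with
  | zero => simp
  | tmul a x =>
    rw [LinearMap.baseChange_tmul, cl_smul]
    have h : T.cl X i (1 ⊗ₜ N.subtype x) = 0 := hN x.2
    rw [h, smul_zero]
  | add a b ha hb => rw [map_add, map_add, ha, hb, add_zero]

/-- The complete conjecture from its main parts. -/
lemma strong_of {X : V} {i : ℤ} (h1 : T.Surj X i) (h2 : T.Inj X i) (h3 : T.Semisimple X i) :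
    T.Strong X i := by
  have hk : LinearMap.ker (T.cl X i) =
      LinearMap.ker (LinearMap.baseChange K (T.HomTriv X i).mkQ) := by
    ext z
    rw [LinearMap.mem_ker, LinearMap.mem_ker, ← mem_range_iff]
    exact ⟨h2 z, cl_range le_rfl⟩
  have hs : Function.Surjective (LinearMap.baseChange K (T.HomTriv X i).mkQ) :=
    LinearMap.lTensor_surjective K (Submodule.mkQ_surjective _)
  let e : LinearMap.range (T.cl X i) ≃ₗ[K] (K ⊗[ℚ] T.B X i) :=
    (LinearMap.quotKerEquivRange (T.cl X i)).symm ≪≫ₗ (Submodule.quotEquivOfEq _ _ hk) ≪≫ₗ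
      LinearMap.quotKerEquivOfSurjective _ hs
  have hr : LinearMap.range (T.cl X i) = Module.End.maxGenEigenspace (T.frob X i) 1 := by
    apply le_antisymm
    · rintro _ ⟨x, rfl⟩
      exact gen_cl x
    · intro e he
      exact h1 e (h3 e he)
  have hf : Module.Finite K (K ⊗[ℚ] T.B X i) := Module.Finite.equiv e
  refine ⟨h1, h2, h3, ?_, ?_⟩
  · have h4 := Module.rank_lt_aleph0_iff.2 hf
    rw [Module.rank_baseChange, Cardinal.lift_lt_aleph0] at h4
    exact Module.rank_lt_aleph0_iff.1 h4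
  · rw [Homology.mult, ← hr, e.finrank_eq, Module.finrank_baseChange]

lemma cl_eq_zero_of_num {X : V} {i j : ℤ} {B : Pairing ℚ (C.CH X i) (C.CH X j)}
    (D : Duality T B) (h' : T.Surj X j) (hs : T.Semisimple X j) {x : C.CH X i}
    (hx : ∀ y, B.val x y = 0) : T.cl X i (1 ⊗ₜ x) = 0 := by
  apply D.left
  intro w
  obtain ⟨a, b, ha, rfl⟩ := ker_sup_range hs w
  obtain ⟨y, rfl⟩ := h' a ha
  let Q : T.E X i →ₗ[K] T.E X j →ₗ[K] K := D.Q
  change Q _ _ = 0
  rw [map_add, map_sub]
  have h1 : Q (T.cl X i (1 ⊗ₜ x)) (T.frob X j b) = Q (T.cl X i (1 ⊗ₜ x)) b := by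
    have h0 : Q (T.frob X i (T.cl X i (1 ⊗ₜ x))) (T.frob X j b) =
      Q (T.cl X i (1 ⊗ₜ x)) b := D.frob _ b
    rwa [T.frob_cl] at h0
  rw [h1, sub_self, add_zero]
  induction y using TensorProduct.induction_on with
  | zero => rw [map_zero, map_zero]
  | tmul c y =>
    have h0 : Q (T.cl X i (1 ⊗ₜ x)) (T.cl X j (1 ⊗ₜ y)) = algebraMap ℚ K (B.val x y) := D.cl x y
    rw [cl_smul T X j c y, map_smul, h0, hx, map_zero, smul_zero]
  | add a b iha ihb =>
    rw [map_add, map_add, iha (T.frob_cl X j a), ihb (T.frob_cl X j b), add_zero]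

/-- The numerically trivial cycles. -/
def num {X : V} {i j : ℤ} (B : Pairing ℚ (C.CH X i) (C.CH X j)) : Submodule ℚ (C.CH X i) :=
  LinearMap.ker (show C.CH X i →ₗ[ℚ] C.CH X j →ₗ[ℚ] ℚ from B)

lemma mem_num {X : V} {i j : ℤ} {B : Pairing ℚ (C.CH X i) (C.CH X j)} {x : C.CH X i} :
    x ∈ num B ↔ ∀ y, B.val x y = 0 := by
  constructor
  · intro h y
    exact congrArg (fun f : C.CH X j →ₗ[ℚ] ℚ => f y) (LinearMap.mem_ker.1 h)
  · intro h
    exact LinearMap.mem_ker.2 (LinearMap.ext h)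

lemma homTriv_le_num {X : V} {i j : ℤ} {B : Pairing ℚ (C.CH X i) (C.CH X j)}
    (D : Duality T B) : T.HomTriv X i ≤ num B := by
  intro x hx
  rw [mem_num]
  intro y
  have h := D.cl x y
  have h1 : T.cl X i (1 ⊗ₜ x) = 0 := hx
  rw [h1] at h
  have h2 : D.Q.val 0 (T.cl X j (1 ⊗ₜ y)) = 0 := by
    change (show T.E X i →ₗ[K] T.E X j →ₗ[K] K from D.Q) 0 _ = 0
    rw [map_zero, LinearMap.zero_apply]
  rw [h2] at h
  exact (map_eq_zero (algebraMap ℚ K)).1 h.symm

/-- Classes of cycles which are linearly independent modulo numerical equivalence are linearly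
independent. -/
lemma linearIndependent_cl {X : V} {i j : ℤ} {B : Pairing ℚ (C.CH X i) (C.CH X j)}
    (D : Duality T B) {I : Type} [Fintype I] (x : I → C.CH X i)
    (hx : LinearIndependent ℚ fun t => (num B).mkQ (x t)) :
    LinearIndependent K fun t => T.cl X i (1 ⊗ₜ x t) := by
  classical
  let B' : C.CH X i →ₗ[ℚ] C.CH X j →ₗ[ℚ] ℚ := B
  let Q : T.E X i →ₗ[K] T.E X j →ₗ[K] K := D.Q
  have hcl : ∀ x y, Q (T.cl X i (1 ⊗ₜ x)) (T.cl X j (1 ⊗ₜ y)) = algebraMap ℚ K (B' x y) := D.cl
  let L : C.CH X j →ₗ[ℚ] (I → ℚ) := LinearMap.pi fun k => B' (x k)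
  have hL : LinearMap.range L = ⊤ := by
    by_contra hne
    obtain ⟨f, hf, hf0⟩ := Submodule.exists_le_ker_of_lt_top _ (lt_top_iff_ne_top.2 hne)
    have h1 : ∀ v, f v = ∑ k, v k * f (Pi.single k 1) := by
      intro v
      conv_lhs => rw [← Finset.univ_sum_single v]
      rw [map_sum]
      refine Finset.sum_congr rfl fun k _ => ?_
      have h2 : (Pi.single k (v k) : I → ℚ) = v k • Pi.single k 1 := by
        rw [← Pi.single_smul, smul_eq_mul, mul_one]
      rw [h2, map_smul, smul_eq_mul]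
    have h2 : ∑ k, f (Pi.single k 1) • (num B).mkQ (x k) = 0 := by
      have h5 : ∑ k, f (Pi.single k 1) • (num B).mkQ (x k) =
          (num B).mkQ (∑ k, f (Pi.single k 1) • x k) := by
        rw [map_sum]
        exact Finset.sum_congr rfl fun k _ => (map_smul _ _ _).symm
      rw [h5, Submodule.mkQ_apply, Submodule.Quotient.mk_eq_zero, mem_num]
      intro y
      have h3 : f (L y) = 0 := hf0 ⟨y, rfl⟩
      rw [h1] at h3
      change B' _ y = 0
      rw [map_sum, LinearMap.sum_apply]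
      rw [← h3]
      refine Finset.sum_congr rfl fun k _ => ?_
      rw [map_smul, LinearMap.smul_apply, smul_eq_mul, mul_comm]
      rfl
    have h3 := Fintype.linearIndependent_iff.1 hx _ h2
    apply hf
    ext k
    simpa using h3 k
  rw [Fintype.linearIndependent_iff]
  intro c hc t
  obtain ⟨y, hy⟩ : ∃ y, L y = Pi.single t 1 := by
    have : (Pi.single t 1 : I → ℚ) ∈ LinearMap.range L := hL ▸ Submodule.mem_top
    exact this
  have h4 : ∑ k, c k * algebraMap ℚ K (B' (x k) y) = 0 := by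
    have h5 : Q (∑ k, c k • T.cl X i (1 ⊗ₜ x k)) (T.cl X j (1 ⊗ₜ y)) = 0 := by
      rw [hc, map_zero, LinearMap.zero_apply]
    rw [map_sum, LinearMap.sum_apply] at h5
    rw [← h5]
    refine Finset.sum_congr rfl fun k _ => ?_
    rw [map_smul, LinearMap.smul_apply, hcl, smul_eq_mul]
  rw [Finset.sum_eq_single t] at h4
  · have h7 : B' (x t) y = 1 := by
      have := congrFun hy t
      simpa [L] using this
    rw [h7, map_one, mul_one] at h4
    exact h4
  · intro k _ hk
    have h7 : B' (x k) y = 0 := by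
      have := congrFun hy k
      simpa [L, hk] using this
    rw [h7, map_zero, mul_zero]
  · intro h
    exact absurd (Finset.mem_univ t) h

end One

end Pool.Agent.R905.GB
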