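import Pool.Agent.R905.GB.Strong

/-!
# Surjectivity for all varieties implies the complete conjecture, continued
-/

set_option autoImplicit false

open TensorProduct

namespace Pool.Agent.R905.GB

section One

variable {V : Type} {C : Chow V} {K : Type} [Field K] [Algebra ℚ K] {T : Homology C K}

lemma finite_mod_num {X : V} {i j : ℤ} {B : Pairing ℚ (C.CH X i) (C.CH X j)}
    (D : Duality T B) : Module.Finite ℚ (C.CH X i ⧸ num B) := by
  let b := Module.Basis.ofVectorSpace ℚ (C.CH X i ⧸ num B)
  choose x hx using fun t => (num B).mkQ_surjective (b t)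
  have h : LinearIndependent K fun t => T.cl X i (1 ⊗ₜ x t) := by
    rw [linearIndependent_iff_finset_linearIndependent]
    intro s
    exact linearIndependent_cl D (fun t : s => x t) (by
      have h1 : (fun t : s => (num B).mkQ (x t)) = fun t : s => b t := by
        funext t
        exact hx t
      rw [h1]
      exact b.linearIndependent.comp _ Subtype.val_injective)
  have h2 := LinearIndependent.finite h
  exact Module.Finite.of_basis b

/-- A family of cycles which is a basis modulo numerical equivalence. -/
lemma exists_basis {X : V} {i j : ℤ} {B : Pairing ℚ (C.CH X i) (C.CH X j)}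
    (D : Duality T B) : ∃ x : Fin (Module.finrank ℚ (C.CH X i ⧸ num B)) → C.CH X i,
      LinearIndependent ℚ (fun t => (num B).mkQ (x t)) ∧
      ∀ y, ∃ a : Fin (Module.finrank ℚ (C.CH X i ⧸ num B)) → ℚ,
        y - ∑ t, a t • x t ∈ num B := by
  have := finite_mod_num D
  let b := Module.finBasis ℚ (C.CH X i ⧸ num B)
  choose x hx using fun t => (num B).mkQ_surjective (b t)
  refine ⟨x, ?_, fun y => ⟨fun t => b.repr ((num B).mkQ y) t, ?_⟩⟩
  · have h1 : (fun t => (num B).mkQ (x t)) = b := by
      funext t
      exact hx t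
    rw [h1]
    exact b.linearIndependent
  · rw [← Submodule.Quotient.mk_eq_zero, ← Submodule.mkQ_apply, map_sub, sub_eq_zero, map_sum]
    conv_lhs => rw [← b.sum_repr ((num B).mkQ y)]
    refine Finset.sum_congr rfl fun t _ => ?_
    rw [map_smul, hx]

/-- If numerically trivial cycles are homologically trivial, the cycle classes of a basis span. -/
lemma range_le_span {X : V} {i j : ℤ} {B : Pairing ℚ (C.CH X i) (C.CH X j)}
    (hN : num B ≤ T.HomTriv X i) {n : ℕ} (x : Fin n → C.CH X i)
    (hx : ∀ y, ∃ a : Fin n → ℚ, y - ∑ t, a t • x t ∈ num B) :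
    LinearMap.range (T.cl X i) ≤ Submodule.span K (Set.range fun t => T.cl X i (1 ⊗ₜ x t)) := by
  rintro _ ⟨z, rfl⟩
  induction z using TensorProduct.induction_on with
  | zero => rw [map_zero]; exact Submodule.zero_mem _
  | tmul c y =>
    rw [cl_smul]
    apply Submodule.smul_mem
    obtain ⟨a, ha⟩ := hx y
    have h1 : T.cl X i (1 ⊗ₜ (y - ∑ t, a t • x t)) = 0 := hN ha
    rw [TensorProduct.tmul_sub, map_sub, sub_eq_zero, TensorProduct.tmul_sum, map_sum] at h1
    rw [h1]
    refine Submodule.sum_mem _ fun t _ => ?_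
    have h2 : (1 : K) ⊗ₜ[ℚ] (a t • x t) = algebraMap ℚ K (a t) • ((1 : K) ⊗ₜ[ℚ] x t) := by
      rw [TensorProduct.tmul_smul, algebraMap_smul]
    rw [h2, map_smul]
    exact Submodule.smul_mem _ _ (Submodule.subset_span ⟨t, rfl⟩)
  | add a b ha hb => rw [map_add]; exact Submodule.add_mem _ ha hb

lemma inj_of {X : V} {i j : ℤ} {B : Pairing ℚ (C.CH X i) (C.CH X j)}
    (D : Duality T B) (hN : num B ≤ T.HomTriv X i) : T.Inj X i := by
  intro z hz
  have hN' : T.HomTriv X i = num B := le_antisymm (homTriv_le_num D) hN
  rw [hN', mem_range_iff]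
  have := finite_mod_num D
  let b := Module.finBasis ℚ (C.CH X i ⧸ num B)
  choose x hx using fun t => (num B).mkQ_surjective (b t)
  let bb := Algebra.TensorProduct.basis K b
  obtain ⟨c, hc⟩ : ∃ c : Fin (Module.finrank ℚ (C.CH X i ⧸ num B)) → K,
      LinearMap.baseChange K (num B).mkQ z = ∑ t, c t ⊗ₜ b t := by
    refine ⟨fun t => bb.repr (LinearMap.baseChange K (num B).mkQ z) t, ?_⟩
    conv_lhs => rw [← bb.sum_repr (LinearMap.baseChange K (num B).mkQ z)]
    refine Finset.sum_congr rfl fun k _ => ?_
    rw [Algebra.TensorProduct.basis_apply, TensorProduct.smul_tmul', smul_eq_mul, mul_one]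
  have h1 : z - ∑ t, c t ⊗ₜ x t ∈
      LinearMap.range (LinearMap.baseChange K (num B).subtype) := by
    rw [mem_range_iff, map_sub, hc, sub_eq_zero, map_sum]
    refine Finset.sum_congr rfl fun t _ => ?_
    rw [LinearMap.baseChange_tmul, hx]
  have h2 := cl_range hN h1
  rw [map_sub, hz, zero_sub, neg_eq_zero, map_sum] at h2
  have h3 : LinearIndependent K fun t => T.cl X i (1 ⊗ₜ x t) :=
    linearIndependent_cl D x (by
      have h1 : (fun t => (num B).mkQ (x t)) = b := by
        funext t
        exact hx t
      rw [h1]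
      exact b.linearIndependent)
  have h4 := Fintype.linearIndependent_iff.1 h3 c (by
    rw [← h2]
    exact Finset.sum_congr rfl fun t _ => (cl_smul T X i (c t) (x t)).symm)
  rw [hc]
  exact Finset.sum_eq_zero fun t _ => by rw [h4 t, TensorProduct.zero_tmul]

end One

section Pres

variable {V : Type} {C : Chow V} {K : Type} [Field K] [Algebra ℚ K] {T : Homology C K}
  {i : ℤ} {I₁ I₀ : Type} [Fintype I₁] [Fintype I₀] {X₁ : I₁ → V} {X₀ : I₀ → V} {X : V}
  {c : ChowPres C i X₁ X₀ X}

/-- The complete conjecture for two families which present `X` implies it for `X`. -/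
theorem HomPres.strong (h : HomPres T c) (h1 : ∀ k, T.Strong (X₁ k) i)
    (h0 : ∀ k, T.Strong (X₀ k) i) : T.Strong X i := by
  classical
  have key : ∀ e : T.E X i, T.Gen e → ∃ z, T.cl X i z = e := by
    intro e he
    obtain ⟨e', he', rfl⟩ := h.gen_surj e he
    have h2 : ∀ k, ∃ w, T.cl (X₀ k) i w = e' k := fun k =>
      (h0 k).surj _ ((h0 k).semisimple _ (he' k))
    choose w hw using h2
    obtain ⟨z, hz⟩ := exists_cl_P h w
    refine ⟨z, ?_⟩
    rw [hz]
    congr 1
    funext k
    exact hw k
  apply strong_of
  · exact fun e he => key e (gen_of_inv he)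
  · intro z hz
    obtain ⟨z0, rfl⟩ := LinearMap.lTensor_surjective K c.surj z
    have hz' : h.P (fun k => T.cl (X₀ k) i (LinearMap.baseChange K (LinearMap.proj k) z0)) =
        0 := by
      rw [cl_P_tensor]
      exact hz
    obtain ⟨e1, he1, he2⟩ := h.gen_exact _ (fun k => gen_cl _) hz'
    have h2 : ∀ k, ∃ w, T.cl (X₁ k) i w = e1 k := fun k =>
      (h1 k).surj _ ((h1 k).semisimple _ (he1 k))
    choose w hw using h2
    obtain ⟨z1, hz1⟩ := exists_family X₁ i w
    have h3 : (fun k => T.cl (X₁ k) i (LinearMap.baseChange K (LinearMap.proj k) z1)) = e1 := by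
      funext k
      rw [hz1, hw]
    have h4 := cl_D_tensor h z1
    rw [h3, he2] at h4
    -- the difference is homologically trivial
    let u := z0 - LinearMap.baseChange K c.d z1
    have h5 : ∀ k, T.cl (X₀ k) i (LinearMap.baseChange K (LinearMap.proj k) u) = 0 := by
      intro k
      rw [map_sub, map_sub, sub_eq_zero]
      exact congrFun h4 k
    have h6 : (LinearMap.baseChange K c.p) z0 = (LinearMap.baseChange K c.p) u := by
      have h6 : (LinearMap.baseChange K c.p) (LinearMap.baseChange K c.d z1) = 0 := by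
        rw [← LinearMap.comp_apply, ← LinearMap.baseChange_comp, c.exact.linearMap_comp_eq_zero,
          LinearMap.baseChange_zero, LinearMap.zero_apply]
      rw [map_sub, h6, sub_zero]
    have h7 : u = ∑ k, LinearMap.baseChange K (LinearMap.single ℚ (fun k => C.CH (X₀ k) i) k)
        (LinearMap.baseChange K (LinearMap.proj k) u) := by
      apply family_ext X₀ i
      intro k
      rw [map_sum, Finset.sum_eq_single k]
      · rw [← LinearMap.comp_apply, ← LinearMap.baseChange_comp, LinearMap.proj_comp_single_same,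
          LinearMap.baseChange_id]
        rfl
      · intro j _ hj
        rw [← LinearMap.comp_apply, ← LinearMap.baseChange_comp,
          LinearMap.proj_comp_single_ne ℚ _ _ _ hj.symm, LinearMap.baseChange_zero,
          LinearMap.zero_apply]
      · intro h
        exact absurd (Finset.mem_univ k) h
    have h8 : ∀ (k : I₀) (w : K ⊗[ℚ] T.HomTriv (X₀ k) i), LinearMap.baseChange K c.p
        (LinearMap.baseChange K (LinearMap.single ℚ (fun k => C.CH (X₀ k) i) k)
          (LinearMap.baseChange K (T.HomTriv (X₀ k) i).subtype w)) ∈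
        LinearMap.range (LinearMap.baseChange K (T.HomTriv X i).subtype) := by
      intro k w
      induction w using TensorProduct.induction_on with
      | zero => simp only [map_zero]; exact Submodule.zero_mem _
      | tmul a x =>
        have hx : c.p (LinearMap.single ℚ (fun k => C.CH (X₀ k) i) k x.1) ∈
            T.HomTriv X i := by
          rw [mem_homTriv, ← h.cl_P]
          have h9 : (fun k' => T.cl (X₀ k') i (1 ⊗ₜ
              (LinearMap.single ℚ (fun k => C.CH (X₀ k) i) k x.1) k')) = 0 := by
            funext k'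
            by_cases hk : k' = k
            · subst hk
              have h10 : (LinearMap.single ℚ (fun k => C.CH (X₀ k) i) k' x.1) k' = x.1 := by
                simp
              rw [h10]
              exact x.2
            · have h10 : (LinearMap.single ℚ (fun k => C.CH (X₀ k) i) k x.1) k' = 0 := by
                simp [hk]
              rw [h10, TensorProduct.tmul_zero, map_zero]
              rfl
          rw [h9]
          exact map_zero h.P
        exact ⟨a ⊗ₜ ⟨_, hx⟩, rfl⟩
      | add a b ha hb => simp only [map_add]; exact Submodule.add_mem _ ha hb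
    change (LinearMap.baseChange K c.p) z0 ∈ _
    rw [h6, h7, map_sum]
    refine Submodule.sum_mem _ fun k _ => ?_
    obtain ⟨w, hw⟩ := (h0 k).inj _ (h5 k)
    rw [← hw]
    exact h8 k w
  · intro e he
    obtain ⟨z, rfl⟩ := key e he
    exact T.frob_cl X i z

end Pres

section Family

variable {V Λ : Type} {C : Chow V} {F : Λ → Type} [∀ l, Field (F l)] [∀ l, Algebra ℚ (F l)]
  {T : ∀ l : Λ, Homology C (F l)}

/-- Transfer for smooth projective varieties: surjectivity and semisimplicity. -/
theorem SmoothProjective.surj {X : V} (hX : SmoothProjective T X) (l l' : Λ)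
    (h : ∀ i, (T l).Surj X i ∧ (T l).Semisimple X i) (i : ℤ) :
    (T l').Surj X i ∧ (T l').Semisimple X i := by
  obtain ⟨j, B, D⟩ := hX.dual i
  obtain ⟨D1⟩ := D l
  obtain ⟨D2⟩ := D l'
  have hN : num B ≤ (T l).HomTriv X i := fun x hx =>
    cl_eq_zero_of_num D1 (h j).1 (h j).2 (mem_num.1 hx)
  obtain ⟨x, hx, hy⟩ := exists_basis D1
  have h1 := range_le_span hN x hy
  have h2 : Module.End.maxGenEigenspace ((T l).frob X i) 1 ≤ LinearMap.range ((T l).cl X i) := by
    intro e he
    exact (h i).1 e ((h i).2 e he)
  have h3 : (T l).mult X i ≤ Module.finrank ℚ (C.CH X i ⧸ num B) :=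
    (Submodule.finrank_mono (h2.trans h1)).trans ((finrank_range_le_card _).trans_eq (by simp))
  -- now for `l'`
  have h4 := linearIndependent_cl D2 x hx
  have h5 : Submodule.span (F l') (Set.range fun t => (T l').cl X i (1 ⊗ₜ x t)) =
      Module.End.maxGenEigenspace ((T l').frob X i) 1 := by
    apply Submodule.eq_of_le_of_finrank_le
    · rw [Submodule.span_le]
      rintro _ ⟨t, rfl⟩
      exact gen_cl _
    · have h6 := finrank_span_eq_card h4
      rw [h6, Fintype.card_fin]
      refine le_trans (le_of_eq ?_) h3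
      exact hX.mult i l' l
  have h6 : ∀ e : (T l').E X i, (T l').Gen e → ∃ z, (T l').cl X i z = e := by
    intro e he
    have h7 : e ∈ Submodule.span (F l') (Set.range fun t => (T l').cl X i (1 ⊗ₜ x t)) :=
      h5 ▸ he
    have h8 : Submodule.span (F l') (Set.range fun t => (T l').cl X i (1 ⊗ₜ x t)) ≤
        LinearMap.range ((T l').cl X i) := by
      rw [Submodule.span_le]
      rintro _ ⟨t, rfl⟩
      exact ⟨_, rfl⟩
    exact h8 h7
  refine ⟨fun e he => h6 e (gen_of_inv he), fun e he => ?_⟩
  obtain ⟨z, rfl⟩ := h6 e he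
  exact (T l').frob_cl X i z

/-- The complete conjecture for smooth projective varieties. -/
theorem SmoothProjective.strong {X : V} (hX : SmoothProjective T X) (l l' : Λ)
    (h : ∀ i, (T l).Surj X i ∧ (T l).Semisimple X i) (i : ℤ) : (T l').Strong X i := by
  have h' := hX.surj l l' h
  obtain ⟨j, B, D⟩ := hX.dual i
  obtain ⟨D2⟩ := D l'
  have hN : num B ≤ (T l').HomTriv X i := fun x hx =>
    cl_eq_zero_of_num D2 (h' j).1 (h' j).2 (mem_num.1 hx)
  exact strong_of (h' i).1 (inj_of D2 hN) (h' i).2

/-- Transfer for all varieties built from varieties with the property `S`. -/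
theorem Built.strong {S : V → Prop} (l : Λ) (h : ∀ X, S X → ∀ i, (T l).Strong X i) {X : V}
    (hX : Built T S X) (i : ℤ) : (T l).Strong X i := by
  induction hX with
  | base X hX => exact h X hX i
  | step X I₁ I₀ X₁ X₀ hp h₁ h₀ ih₁ ih₀ =>
    obtain ⟨c, hc⟩ := hp i
    obtain ⟨q⟩ := hc l
    exact q.strong ih₁ ih₀

/-- Surjectivity for all varieties and one prime implies the complete conjecture for all primes. -/
theorem strong_of_surj (hB : ∀ X, Built T (SmoothProjective T) X)
    (hS : ∀ l X, SmoothProjective T X → ∀ i, HasSupports (T l) X i) (l : Λ)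
    (h : ∀ X i, (T l).Surj X i) (l' : Λ) (X : V) (i : ℤ) : (T l').Strong X i :=
  (hB X).strong l' (fun Y hY => hY.strong l l' fun i =>
    ⟨h Y i, ((surj_complements_iff Y i (hS l Y hY i)).1 fun _ U _ _ => h U i).2⟩) i

end Family

end Pool.Agent.R905.GB
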